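import Pool.Agent.Q262.Ht.PQ

/-!
The divisors of `X^(19² · 149²) - 1`.
-/

set_option autoImplicit false

open Polynomial Finset

namespace Q262.Kron

open Q262.Hgt Q262.Circ

lemma expand_g_mul (s m : ℕ) :
    (expand ℕ s (g m)).map (Nat.castRingHom ℤ) * (X ^ s - 1) = X ^ (s * m) - 1 := by
  have h := congrArg (expand ℤ s) (g_map_mul m)
  rw [map_mul, map_sub, map_sub, expand_X, map_one, map_pow, expand_X, ← pow_mul] at h
  rw [map_expand, h]

/-- positive part of `Φ_{19 · 149}` -/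
noncomputable def aP : ℕ[X] := expand ℕ 19 (g 102) * expand ℕ 149 (g 6)

/-- negative part of `Φ_{19 · 149}` -/
noncomputable def aM : ℕ[X] := X * (expand ℕ 19 (g 47) * expand ℕ 149 (g 13))

lemma phi_eq : cyclotomic (19 * 149) ℤ =
    aP.map (Nat.castRingHom ℤ) - aM.map (Nat.castRingHom ℤ) := by
  have h1 := phi_mul 19 149 (by norm_num) (by norm_num) (by norm_num)
  have hne : ((X ^ 19 - 1) * (X ^ 149 - 1) : ℤ[X]) ≠ 0 :=
    mul_ne_zero (pow_sub_one_ne (by norm_num)) (pow_sub_one_ne (by norm_num))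
  apply mul_right_cancel₀ hne
  rw [h1, aP, aM]
  simp only [Polynomial.map_mul, map_X]
  have e1 := expand_g_mul 19 102
  have e2 := expand_g_mul 149 6
  have e3 := expand_g_mul 19 47
  have e4 := expand_g_mul 149 13
  generalize (expand ℕ 19 (g 102)).map (Nat.castRingHom ℤ) = P1 at *
  generalize (expand ℕ 149 (g 6)).map (Nat.castRingHom ℤ) = P2 at *
  generalize (expand ℕ 19 (g 47)).map (Nat.castRingHom ℤ) = P3 at *
  generalize (expand ℕ 149 (g 13)).map (Nat.castRingHom ℤ) = P4 at *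
  have : (P1 * P2 - X * (P3 * P4)) * ((X ^ 19 - 1) * (X ^ 149 - 1)) =
      (P1 * (X ^ 19 - 1)) * (P2 * (X ^ 149 - 1)) -
        X * ((P3 * (X ^ 19 - 1)) * (P4 * (X ^ 149 - 1))) := by ring
  rw [this, e1, e2, e3, e4]
  ring

lemma maj_phi : Maj (cyclotomic (19 * 149) ℤ) (aP + aM) := by
  rw [phi_eq]
  exact (Maj.map _).sub (Maj.map _)

lemma maj_phi_one : (aP + aM).eval 1 = 1223 := by
  simp [aP, aM, expand_eval]

/-- `Φ_p Φ_q Φ_{p²q} Φ_{pq²}` for `p = 19`, `q = 149` -/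
noncomputable def polA : ℤ[X] :=
  cyclotomic 19 ℤ * cyclotomic 149 ℤ * cyclotomic (19 ^ 2 * 149) ℤ * cyclotomic (19 * 149 ^ 2) ℤ

lemma cyc_p2q : cyclotomic (19 ^ 2 * 149) ℤ = expand ℤ 19 (cyclotomic (19 * 149) ℤ) := by
  rw [cyclotomic_expand_eq_cyclotomic (by norm_num) (by norm_num)]
  norm_num

lemma cyc_pq2 : cyclotomic (19 * 149 ^ 2) ℤ = expand ℤ 149 (cyclotomic (19 * 149) ℤ) := by
  rw [cyclotomic_expand_eq_cyclotomic (by norm_num) (by norm_num)]
  norm_num

lemma cyc_p2q2 : cyclotomic (19 ^ 2 * 149 ^ 2) ℤ = expand ℤ 2831 (cyclotomic (19 * 149) ℤ) := by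
  have h : cyclotomic (19 * 149 * 149 * 19) ℤ = expand ℤ 19 (expand ℤ 149 (cyclotomic (19 * 149) ℤ)) := by
    rw [cyclotomic_expand_eq_cyclotomic (by norm_num) (by norm_num),
      cyclotomic_expand_eq_cyclotomic (by norm_num) (by norm_num)]
  rw [expand_expand] at h
  exact h

lemma polA_bound (i : ℕ) : |polA.coeff i| ≤ (4234408799 : ℕ) := by
  have h1 : Maj polA (g 19 * g 149 * expand ℕ 19 (aP + aM) * expand ℕ 149 (aP + aM)) := by
    rw [polA, cyc_p2q, cyc_pq2]
    exact (((maj_prime 19 (by norm_num)).mul (maj_prime 149 (by norm_num))).mul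
      (maj_phi.expand 19 (by norm_num))).mul (maj_phi.expand 149 (by norm_num))
  have h2 := h1.le i
  have h3 : (g 19 * g 149 * expand ℕ 19 (aP + aM) * expand ℕ 149 (aP + aM)).eval 1 = 4234408799 := by
    rw [eval_mul, eval_mul, eval_mul, expand_eval, expand_eval, one_pow, one_pow, maj_phi_one,
      g_eval_one, g_eval_one]
    norm_num
  rw [h3] at h2
  exact h2

/-- number of digits -/
def NN : ℕ := 447719

/-- the value of `polA` at `2^32` -/
def vA : ℕ :=
  geoV 19 (2 ^ 32) * geoV 149 (2 ^ 32) * phiV 19 149 ((2 ^ 32) ^ 19) * phiV 19 149 ((2 ^ 32) ^ 149)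

lemma vA_eq : polA.eval ((2 ^ 32 : ℕ) : ℤ) = vA := by
  rw [polA, cyc_p2q, cyc_pq2, eval_mul, eval_mul, eval_mul, expand_eval, expand_eval]
  have e1 : (((2 ^ 32 : ℕ) : ℤ)) ^ 19 = (((2 ^ 32) ^ 19 : ℕ) : ℤ) := by push_cast
  have e2 : (((2 ^ 32 : ℕ) : ℤ)) ^ 149 = (((2 ^ 32) ^ 149 : ℕ) : ℤ) := by push_cast
  rw [e1, e2, geoV_eq 19 _ (by norm_num) (by norm_num), geoV_eq 149 _ (by norm_num) (by norm_num),
    phiV_eq 19 149 _ (by norm_num) (by norm_num) (by norm_num) (by norm_num),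
    phiV_eq 19 149 _ (by norm_num) (by norm_num) (by norm_num) (by norm_num), vA]
  push_cast
  ring

/-- the kernel computation for the upper bound -/
def chkA : Bool :=
  force (ones 32 NN) fun o => force (834 * o) fun Ho => force ((2 ^ 32 - 2 ^ 11) * o) fun M =>
    force vA fun v => chk 32 NN Ho M v

/-- sum by recursion -/
def sumN (n : ℕ) (f : ℕ → ℕ) : ℕ := Nat.rec (motive := fun _ => ℕ) 0 (fun k ih => ih + f k) n

lemma sumN_eq (n : ℕ) (f : ℕ → ℕ) : sumN n f = ∑ i ∈ range n, f i := by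
  induction n with
  | zero => rfl
  | succ n ih => rw [Finset.sum_range_succ, ← ih]; rfl

/-- shifted coefficient -/
def dg (Y i w : ℕ) : ℕ :=
  cond (Nat.ble (2831 * w) i && Nat.blt (i - 2831 * w) NN)
    ((Nat.shiftRight Y (32 * (i - 2831 * w))) % 2 ^ 32) 834

/-- the kernel computation of one coefficient -/
def chkC : Bool :=
  force (vA + 834 * ones 32 NN) fun Y =>
    Nat.beq (sumN 47 fun u => sumN 13 fun v => dg Y 1456798 (1 + (19 * u + 149 * v)))
      ((sumN 102 fun u => sumN 6 fun v => dg Y 1456798 (19 * u + 149 * v)) + 1)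

end Q262.Kron
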