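import Pool.Agent.Q262.Ht.Big
import Pool.Agent.Q262.CycMain

/-!
`B(19² · 149²)` exceeds the heights of the two special divisors.
-/

set_option autoImplicit false

open Polynomial Finset

namespace Q262.Kron

open Q262.Hgt Q262.Circ

theorem chkA_true : chkA = true := by decide +kernel

theorem chkC_true : chkC = true := by decide +kernel

attribute [local irreducible] vA ones

lemma chkA' : chk 32 NN (834 * ones 32 NN) (mask 32 11 NN) vA = true := by
  have h := chkA_true
  rw [chkA, force_eq, force_eq, force_eq, force_eq] at h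
  exact h

theorem height_polA : height polA ≤ 834 := by
  rw [height_le_iff]
  exact height_of_chk polA 4234408799 32 11 NN 834 vA polA_bound vA_eq (by norm_num) (by norm_num)
    (by norm_num) chkA'

lemma coeff_polA (k : ℕ) : polA.coeff k =
    if k < NN then (((vA + 834 * ones 32 NN) / (2 ^ 32) ^ k % 2 ^ 32 : ℕ) : ℤ) - 834 else 0 := by
  have h := chkA'
  rw [chk, Bool.and_eq_true, Bool.and_eq_true, Bool.and_eq_true] at h
  obtain ⟨⟨⟨h1, h2⟩, _⟩, _⟩ := h
  have h1 := Nat.eq_of_beq_eq_true h1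
  have h2 : _ < _ := Nat.blt_eq.mp h2
  have h3 : polA.eval ((2 ^ 32 : ℕ) : ℤ) + (834 : ℕ) * (ones 32 NN : ℕ) =
      ((vA + 834 * ones 32 NN : ℕ) : ℤ) := by
    rw [vA_eq, Nat.cast_add, Nat.cast_mul]
  exact coeff_of_check polA 4234408799 32 11 NN 834 _ polA_bound h3
    h2 h1 (by norm_num) (by norm_num) (by norm_num) k

lemma dg_eq (i w : ℕ) : ((dg (vA + 834 * ones 32 NN) i w : ℕ) : ℤ) =
    (if 2831 * w ≤ i then polA.coeff (i - 2831 * w) else 0) + 834 := by
  rw [dg]
  by_cases h1 : 2831 * w ≤ i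
  · rw [if_pos h1, coeff_polA]
    by_cases h2 : i - 2831 * w < NN
    · rw [if_pos h2, Nat.ble_eq.mpr h1, Nat.blt_eq.mpr h2]
      have e : Nat.shiftRight (vA + 834 * ones 32 NN) (32 * (i - 2831 * w)) =
          (vA + 834 * ones 32 NN) / (2 ^ 32) ^ (i - 2831 * w) := by
        rw [← pow_mul]
        exact Nat.shiftRight_eq_div_pow _ _
      rw [e]
      simp only [Bool.and_self, cond_true]
      ring
    · have h3 : Nat.blt (i - 2831 * w) NN = false := by
        rw [← Bool.not_eq_true, Nat.blt_eq]; exact h2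
      rw [if_neg h2, h3, Bool.and_false]
      simp
  · have h3 : Nat.ble (2831 * w) i = false := by
      rw [← Bool.not_eq_true, Nat.ble_eq]; exact h1
    rw [if_neg h1, h3, Bool.false_and]
    simp

/-- the divisor with large height -/
noncomputable def polF : ℤ[X] := polA * cyclotomic (19 ^ 2 * 149 ^ 2) ℤ

lemma g_expand_sum (s m : ℕ) : (expand ℕ s (g m)).map (Nat.castRingHom ℤ) =
    ∑ u ∈ range m, (X : ℤ[X]) ^ (s * u) := by
  rw [map_expand, g_map, map_sum]
  apply Finset.sum_congr rfl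
  intro i _
  rw [map_pow, expand_X, ← pow_mul]

lemma mul_expand_prod (A : ℤ[X]) (s a b m n : ℕ) :
    A * expand ℤ s ((∑ u ∈ range m, (X : ℤ[X]) ^ (a * u)) * ∑ v ∈ range n, (X : ℤ[X]) ^ (b * v)) =
      ∑ u ∈ range m, ∑ v ∈ range n, A * X ^ (s * (a * u + b * v)) := by
  rw [Finset.sum_mul_sum, map_sum, Finset.mul_sum]
  apply Finset.sum_congr rfl
  intro u _
  rw [map_sum, Finset.mul_sum]
  apply Finset.sum_congr rfl
  intro v _
  rw [map_mul, map_pow, map_pow, expand_X, ← pow_add, ← pow_mul]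

lemma mul_expand_prod' (A : ℤ[X]) (s a b m n : ℕ) :
    A * expand ℤ s (X * ((∑ u ∈ range m, (X : ℤ[X]) ^ (a * u)) *
      ∑ v ∈ range n, (X : ℤ[X]) ^ (b * v))) =
      ∑ u ∈ range m, ∑ v ∈ range n, A * X ^ (s * (1 + (a * u + b * v))) := by
  rw [map_mul, expand_X, ← mul_assoc, mul_expand_prod]
  apply Finset.sum_congr rfl
  intro u _
  apply Finset.sum_congr rfl
  intro v _
  rw [mul_assoc, ← pow_add, mul_add s 1, mul_one]

lemma polF_eq : polF =
    (∑ u ∈ range 102, ∑ v ∈ range 6, polA * X ^ (2831 * (19 * u + 149 * v))) -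
    (∑ u ∈ range 47, ∑ v ∈ range 13, polA * X ^ (2831 * (1 + (19 * u + 149 * v)))) := by
  rw [polF, cyc_p2q2, phi_eq, map_sub, mul_sub, aP, aM, ← mul_expand_prod, ← mul_expand_prod',
    Polynomial.map_mul, Polynomial.map_mul, Polynomial.map_mul, map_X, g_expand_sum, g_expand_sum,
    g_expand_sum, g_expand_sum]

lemma coeff_polF : polF.coeff 1456798 = -835 := by
  rw [polF_eq, coeff_sub, finsetSum_coeff, finsetSum_coeff]
  simp only [finsetSum_coeff, coeff_mul_X_pow']
  have h := chkC_true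
  rw [chkC, force_eq] at h
  have h := Nat.eq_of_beq_eq_true h
  simp only [sumN_eq] at h
  have h' := congrArg (Nat.cast : ℕ → ℤ) h
  push_cast at h'
  simp only [dg_eq, Finset.sum_add_distrib, Finset.sum_const, Finset.card_range] at h'
  simp only [nsmul_eq_mul] at h'
  push_cast at h'
  linarith

theorem height_polF : 835 ≤ height polF := by
  have := natAbs_coeff_le polF 1456798
  rw [coeff_polF] at this
  exact this

lemma prod_dvd (p q : ℕ) (hp : 2 ≤ p) (hpq : p < q) (F : ℤ[X])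
    (hF : F = cyclotomic p ℤ * cyclotomic q ℤ * cyclotomic (p ^ 2 * q) ℤ *
      cyclotomic (p * q ^ 2) ℤ * cyclotomic (p ^ 2 * q ^ 2) ℤ) :
    F ∣ X ^ (p ^ 2 * q ^ 2) - 1 := by
  have hp0 : 0 < p := by omega
  have hq0 : 0 < q := by omega
  have h2 : q < p ^ 2 * q := by
    have h := Nat.mul_lt_mul_of_pos_right (show 1 < p ^ 2 by nlinarith) hq0
    rw [one_mul] at h
    exact h
  have h3 : p ^ 2 * q < p * q ^ 2 := by
    have : p * q * p < p * q * q := Nat.mul_lt_mul_of_pos_left hpq (Nat.mul_pos hp0 hq0)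
    calc p ^ 2 * q = p * q * p := by ring
      _ < p * q * q := this
      _ = p * q ^ 2 := by ring
  have h4 : p * q ^ 2 < p ^ 2 * q ^ 2 := by
    have : p * q ^ 2 * 1 < p * q ^ 2 * p :=
      Nat.mul_lt_mul_of_pos_left (by omega) (Nat.mul_pos hp0 (pow_pos hq0 2))
    calc p * q ^ 2 = p * q ^ 2 * 1 := by ring
      _ < p * q ^ 2 * p := this
      _ = p ^ 2 * q ^ 2 := by ring
  have hn : 0 < p ^ 2 * q ^ 2 := by omega
  rw [← prod_cyclotomic_eq_X_pow_sub_one hn ℤ]
  have h : cyclotomic p ℤ * cyclotomic q ℤ * cyclotomic (p ^ 2 * q) ℤ * cyclotomic (p * q ^ 2) ℤ *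
      cyclotomic (p ^ 2 * q ^ 2) ℤ =
      ∏ d ∈ ({p, q, p ^ 2 * q, p * q ^ 2, p ^ 2 * q ^ 2} : Finset ℕ), cyclotomic d ℤ := by
    rw [Finset.prod_insert, Finset.prod_insert, Finset.prod_insert, Finset.prod_insert,
      Finset.prod_singleton]
    · ring
    all_goals
      simp only [Finset.mem_insert, Finset.mem_singleton, not_or]
      omega
  rw [hF, h]
  apply Finset.prod_dvd_prod_of_subset
  intro d hd
  rw [Nat.mem_divisors]
  refine ⟨?_, hn.ne'⟩
  simp only [Finset.mem_insert, Finset.mem_singleton] at hd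
  rcases hd with rfl | rfl | rfl | rfl | rfl
  · exact ⟨d * q ^ 2, by ring⟩
  · exact ⟨p ^ 2 * d, by ring⟩
  · exact ⟨q, by ring⟩
  · exact ⟨p, by ring⟩
  · exact dvd_rfl

theorem polF_dvd : polF ∣ X ^ (19 ^ 2 * 149 ^ 2) - 1 :=
  prod_dvd 19 149 (by norm_num) (by norm_num) polF (by rw [polF, polA])

/-- the other special divisor -/
theorem height_candB :
    height (cyclotomic 19 ℤ * cyclotomic 149 ℤ * cyclotomic (19 ^ 2) ℤ * cyclotomic (149 ^ 2) ℤ) ≤
      361 := by
  have key : ∀ p : ℕ, p.Prime → cyclotomic p ℤ * cyclotomic (p ^ 2) ℤ =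
      (g (p ^ 2)).map (Nat.castRingHom ℤ) := by
    intro p hp
    have e1 : cyclotomic (p ^ 2) ℤ = expand ℤ p (cyclotomic p ℤ) := by
      rw [cyclotomic_expand_eq_cyclotomic hp dvd_rfl, pow_two]
    apply mul_right_cancel₀ map_ne
    rw [g_map_mul, e1, cyc_prime_eq p hp]
    have e2 := g_map_mul p
    have e3 := congrArg (expand ℤ p) e2
    rw [map_mul, map_sub, map_sub, expand_X, map_one, map_pow, expand_X, ← pow_mul] at e3
    rw [mul_right_comm, e2, mul_comm, e3, pow_two]
  have h : cyclotomic 19 ℤ * cyclotomic 149 ℤ * cyclotomic (19 ^ 2) ℤ * cyclotomic (149 ^ 2) ℤ =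
      (g (149 ^ 2)).map (Nat.castRingHom ℤ) * (g (19 ^ 2)).map (Nat.castRingHom ℤ) := by
    rw [← key 19 (by norm_num), ← key 149 (by norm_num)]
    ring
  rw [h, height_le_iff]
  intro i
  have h1 := coeff_mul_le (F := (g (149 ^ 2)).map (Nat.castRingHom ℤ)) 1 (by
    intro i
    rw [g_map, finsetSum_coeff]
    simp only [coeff_X_pow]
    rw [Finset.sum_ite_eq]
    split_ifs <;> simp) (Maj.map (g (19 ^ 2))) i
  rw [g_eval_one] at h1
  norm_num at h1 ⊢
  exact h1

end Q262.Kron
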