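import Pool.Agent.Q262.Ht.Kron

/-!
Certificates for quotients of products of polynomials `X^e - 1`.
-/

set_option autoImplicit false

open Polynomial Finset

namespace Q262.Kron

open Q262.Hgt Q262.Circ

lemma exists_digits (K m N H Y : ℕ) (v : ℤ) (hY : v + H * ones K N = Y) (hlt : Y < 2 ^ (K * N))
    (hmask : Y &&& mask K m N = 0) (hm : m ≤ K) (hK : 0 < K) :
    ∃ G : ℤ[X], (∀ i, G.coeff i = if i < N then ((Y / (2 ^ K) ^ i % 2 ^ K : ℕ) : ℤ) - H else 0) ∧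
      (∀ i, |G.coeff i| ≤ ((H + 2 ^ m : ℕ) : ℤ)) ∧ G.eval ((2 ^ K : ℕ) : ℤ) = v := by
  have hdig := digit_lt K m N hK hm Y hmask
  refine ⟨∑ i ∈ range N, C (((Y / (2 ^ K) ^ i % 2 ^ K : ℕ) : ℤ) - H) * X ^ i, ?_⟩
  set G : ℤ[X] := ∑ i ∈ range N, C (((Y / (2 ^ K) ^ i % 2 ^ K : ℕ) : ℤ) - H) * X ^ i with hG
  have hGc : ∀ i, G.coeff i = if i < N then ((Y / (2 ^ K) ^ i % 2 ^ K : ℕ) : ℤ) - H else 0 := by
    intro i
    rw [hG, finsetSum_coeff]
    simp only [coeff_C_mul, coeff_X_pow, mul_ite, mul_one, mul_zero]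
    rw [Finset.sum_ite_eq]
    simp only [Finset.mem_range]
  refine ⟨hGc, ?_, ?_⟩
  · intro i
    rw [hGc]
    split_ifs with h
    · have h1 := hdig i h
      have h2 : ((Y / (2 ^ K) ^ i % 2 ^ K : ℕ) : ℤ) < ((2 ^ m : ℕ) : ℤ) := by exact_mod_cast h1
      have h3 : (0 : ℤ) ≤ ((Y / (2 ^ K) ^ i % 2 ^ K : ℕ) : ℤ) := Int.natCast_nonneg _
      rw [Nat.cast_add, abs_le]
      constructor
      · have : (0 : ℤ) ≤ ((2 ^ m : ℕ) : ℤ) := Int.natCast_nonneg _
        linarith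
      · have : (0 : ℤ) ≤ (H : ℤ) := Int.natCast_nonneg _
        linarith
    · rw [abs_zero]; exact Int.natCast_nonneg _
  · rw [hG, eval_finsetSum]
    simp only [eval_mul, eval_C, eval_pow, eval_X, sub_mul, Finset.sum_sub_distrib]
    rw [← Finset.mul_sum]
    have h1 : ∑ i ∈ range N, ((Y / (2 ^ K) ^ i % 2 ^ K : ℕ) : ℤ) * ((2 ^ K : ℕ) : ℤ) ^ i = Y := by
      have := sum_digits (2 ^ K) N Y
      rw [← pow_mul, Nat.mod_eq_of_lt hlt] at this
      conv_rhs => rw [← this]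
      push_cast
      rfl
    have h2 : ((ones K N : ℕ) : ℤ) = ∑ i ∈ range N, ((2 ^ K : ℕ) : ℤ) ^ i := by
      rw [ones_eq K N hK]; push_cast; rfl
    rw [h1, ← h2, ← hY]
    ring

/-- coefficients of a quotient from its value -/
theorem coeff_of_quot (F Den Num : ℤ[X]) (GD GN : ℕ[X]) (hDen : Den ≠ 0) (hmul : F * Den = Num)
    (hGD : Maj Den GD) (hGN : Maj Num GN) (K m N H Y : ℕ) (v : ℤ)
    (hv : v * Den.eval ((2 ^ K : ℕ) : ℤ) = Num.eval ((2 ^ K : ℕ) : ℤ))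
    (hY : v + H * ones K N = Y) (hlt : Y < 2 ^ (K * N))
    (hmask : Y &&& mask K m N = 0) (hm : m ≤ K) (hK : 0 < K)
    (hb : (H + 2 ^ m) * GD.eval 1 + GN.eval 1 < 2 ^ K) :
    ∀ i, F.coeff i = if i < N then ((Y / (2 ^ K) ^ i % 2 ^ K : ℕ) : ℤ) - H else 0 := by
  obtain ⟨G, h1, h2, h3⟩ := exists_digits K m N H Y v hY hlt hmask hm hK
  have h4 : G * Den = Num := by
    apply eq_of_eval (2 ^ K) _ _ ((H + 2 ^ m) * GD.eval 1) (GN.eval 1)
      (coeff_mul_le _ h2 hGD) hGN.le hb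
    rw [eval_mul, h3, hv]
  have h5 : F = G := mul_right_cancel₀ hDen (hmul.trans h4.symm)
  intro i
  rw [h5, h1]

theorem height_of_quot (F Den Num : ℤ[X]) (GD GN : ℕ[X]) (hDen : Den ≠ 0) (hmul : F * Den = Num)
    (hGD : Maj Den GD) (hGN : Maj Num GN) (K m N H v : ℕ)
    (hv : (v : ℤ) * Den.eval ((2 ^ K : ℕ) : ℤ) = Num.eval ((2 ^ K : ℕ) : ℤ)) (hm : m ≤ K)
    (hK : 0 < K) (hb : (H + 2 ^ m) * GD.eval 1 + GN.eval 1 < 2 ^ K)
    (h : chk K N (H * ones K N) (mask K m N) v = true) :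
    (∀ i, |F.coeff i| ≤ H) ∧ ∀ i, F.coeff i =
      if i < N then (((v + H * ones K N) / (2 ^ K) ^ i % 2 ^ K : ℕ) : ℤ) - H else 0 := by
  rw [chk, Bool.and_eq_true, Bool.and_eq_true, Bool.and_eq_true] at h
  obtain ⟨⟨⟨h1, h2⟩, h3⟩, h4⟩ := h
  have h1 := Nat.eq_of_beq_eq_true h1
  have h2 : _ < _ := Nat.blt_eq.mp h2
  have h3 := Nat.le_of_ble_eq_true h3
  have h4 := Nat.eq_of_beq_eq_true h4
  have c1 := coeff_of_quot F Den Num GD GN hDen hmul hGD hGN K m N H _ (v : ℤ) hv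
    (by push_cast; rfl) h2 h1 hm hK hb
  have hmul' : (-F) * Den = -Num := by rw [neg_mul, hmul]
  have hGN' : Maj (-Num) GN := by intro i; rw [coeff_neg, abs_neg]; exact hGN i
  have c2 := coeff_of_quot (-F) Den (-Num) GD GN hDen hmul' hGD hGN' K m N H
    (H * ones K N - v) (-(v : ℤ)) (by rw [eval_neg, neg_mul, hv])
    (by rw [Nat.cast_sub h3]; push_cast; ring) (by omega) h4 hm hK hb
  refine ⟨?_, c1⟩
  intro i
  have d1 := c1 i
  have d2 := c2 i
  rw [coeff_neg] at d2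
  rw [abs_le]
  split_ifs at d1 d2 with hi
  · have e1 : (0 : ℤ) ≤ (((v + H * ones K N) / (2 ^ K) ^ i % 2 ^ K : ℕ) : ℤ) := Int.natCast_nonneg _
    have e2 : (0 : ℤ) ≤ (((H * ones K N - v) / (2 ^ K) ^ i % 2 ^ K : ℕ) : ℤ) := Int.natCast_nonneg _
    constructor
    · rw [d1]; linarith
    · linarith
  · rw [d1]; constructor <;> simp

/-- the polynomial `X^e - 1` -/
noncomputable def xe (e : ℕ) : ℤ[X] := X ^ e - 1

/-- the product of the `(X^e - 1)^k` over a list of pairs `(e, k)` -/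
noncomputable def prodX (l : List (ℕ × ℕ)) : ℤ[X] := (l.map fun a => xe a.1 ^ a.2).prod

/-- its value at `B` -/
def prodV (B : ℕ) (l : List (ℕ × ℕ)) : ℕ := (l.map fun a => (B ^ a.1 - 1) ^ a.2).prod

/-- sum of the exponents -/
def expo (l : List (ℕ × ℕ)) : ℕ := (l.map fun a => a.2).sum

@[simp] lemma prodX_nil : prodX [] = 1 := rfl

@[simp] lemma prodX_cons (a : ℕ × ℕ) (l : List (ℕ × ℕ)) :
    prodX (a :: l) = xe a.1 ^ a.2 * prodX l := by
  simp [prodX]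

lemma prodX_cons' (e k : ℕ) (l : List (ℕ × ℕ)) : prodX ((e, k) :: l) = xe e ^ k * prodX l :=
  prodX_cons (e, k) l

lemma prodX_eval (B : ℕ) (hB : 1 ≤ B) (l : List (ℕ × ℕ)) :
    (prodX l).eval (B : ℤ) = prodV B l := by
  induction l with
  | nil => simp [prodV]
  | cons a l ih =>
    rw [prodX_cons, eval_mul, ih, prodV, prodV, List.map_cons, List.prod_cons]
    push_cast [Nat.one_le_pow a.1 B hB]
    simp [xe]

lemma prodX_ne (l : List (ℕ × ℕ)) (h : ∀ a ∈ l, 0 < a.1) : prodX l ≠ 0 := by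
  induction l with
  | nil => simp
  | cons a l ih =>
    rw [prodX_cons]
    apply mul_ne_zero
    · apply pow_ne_zero
      have h1 := h a (List.mem_cons_self)
      exact (monic_X_pow_sub_C 1 h1.ne').ne_zero
    · exact ih fun b hb => h b (List.mem_cons_of_mem _ hb)

lemma Maj.pow {F : ℤ[X]} {G : ℕ[X]} (h : Maj F G) (k : ℕ) : Maj (F ^ k) (G ^ k) := by
  induction k with
  | zero =>
    intro i
    rw [pow_zero, pow_zero, coeff_one, coeff_one]
    split_ifs <;> simp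
  | succ k ih => rw [pow_succ, pow_succ]; exact ih.mul h

lemma maj_X_pow (e : ℕ) : Maj (xe e) (X ^ e + 1) := by
  rw [xe]
  apply Maj.sub
  · intro i
    rw [coeff_X_pow, coeff_X_pow]
    split_ifs <;> simp
  · intro i
    rw [coeff_one, coeff_one]
    split_ifs <;> simp

lemma maj_prodX (l : List (ℕ × ℕ)) : ∃ G : ℕ[X], Maj (prodX l) G ∧ G.eval 1 = 2 ^ expo l := by
  induction l with
  | nil =>
    refine ⟨1, ?_, by simp [expo]⟩
    intro i
    rw [prodX_nil, coeff_one, coeff_one]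
    split_ifs <;> simp
  | cons a l ih =>
    obtain ⟨G, h1, h2⟩ := ih
    refine ⟨(X ^ a.1 + 1) ^ a.2 * G, ?_, ?_⟩
    · rw [prodX_cons]
      exact ((maj_X_pow a.1).pow a.2).mul h1
    · rw [eval_mul, h2, eval_pow, eval_add, eval_pow, eval_X, eval_one, one_pow, expo, expo,
        List.map_cons, List.sum_cons, pow_add]
      norm_num

/-- Kernel check for a quotient of products of `X^e - 1`. -/
theorem height_of_prodX (F : ℤ[X]) (den num : List (ℕ × ℕ)) (hpos : ∀ a ∈ den, 0 < a.1)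
    (hmul : F * prodX den = prodX num) (K m N H v : ℕ)
    (hv : v * prodV (2 ^ K) den = prodV (2 ^ K) num) (hm : m ≤ K)
    (hK : 0 < K) (hb : (H + 2 ^ m) * 2 ^ expo den + 2 ^ expo num < 2 ^ K)
    (h : chk K N (H * ones K N) (mask K m N) v = true) :
    (∀ i, |F.coeff i| ≤ H) ∧ ∀ i, F.coeff i =
      if i < N then (((v + H * ones K N) / (2 ^ K) ^ i % 2 ^ K : ℕ) : ℤ) - H else 0 := by
  obtain ⟨GD, d1, d2⟩ := maj_prodX den
  obtain ⟨GN, n1, n2⟩ := maj_prodX num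
  apply height_of_quot F (prodX den) (prodX num) GD GN (prodX_ne den hpos) hmul d1 n1 K m N H v _
    hm hK (by rw [d2, n2]; exact hb) h
  rw [prodX_eval _ Nat.one_le_two_pow, prodX_eval _ Nat.one_le_two_pow, ← hv]
  push_cast
  rfl

end Q262.Kron
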