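import Pool.Agent.Q262.Ht.Kron
import Pool.Agent.Q262.Mono.Cyc
import Pool.Agent.Q262.CycFinal

/-!
All the products of a list of polynomials: kernel check of the largest height.
-/

set_option autoImplicit false

open Polynomial Finset

namespace Q262.Kron

open Q262.Hgt Q262.Circ Q262.Mono

/-- `v = P(2^K)` and `P` has `l¹` norm at most `L` -/
structure Good (K L : ℕ) (P : ℤ[X]) (v : ℕ) : Prop where
  ev : P.eval ((2 ^ K : ℕ) : ℤ) = v
  maj : ∃ G : ℕ[X], Maj P G ∧ G.eval 1 ≤ L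

/-- depth first search through all the products -/
def dfs (K N Ho M : ℕ) (l : List ℕ) : ℕ → Bool :=
  List.rec (motive := fun _ => ℕ → Bool) (fun _ => true)
    (fun c _ ih v => force (v * c) fun v' => chk K N Ho M v' && ih v' && ih v) l

lemma dfs_cons (K N Ho M c : ℕ) (l : List ℕ) (v : ℕ) : dfs K N Ho M (c :: l) v =
    (chk K N Ho M (v * c) && dfs K N Ho M l (v * c) && dfs K N Ho M l v) := by
  show force (v * c) (fun v' => chk K N Ho M v' && dfs K N Ho M l v' && dfs K N Ho M l v) = _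
  rw [force_eq]

theorem dfs_sound (K m N H L : ℕ) (hm : m ≤ K) (hK : 0 < K) (hb : H * L + H + 2 ^ m ≤ 2 ^ K)
    (items : List (ℤ[X] × ℕ)) (hg : ∀ a ∈ items, Good K L a.1 a.2) :
    ∀ (F : ℤ[X]) (v : ℕ), (∀ i, |F.coeff i| ≤ H) → F.eval ((2 ^ K : ℕ) : ℤ) = v →
      dfs K N (H * ones K N) (mask K m N) (items.map Prod.snd) v = true →
      ∀ s : List ℤ[X], s.Sublist (items.map Prod.fst) → ∀ i, |(F * s.prod).coeff i| ≤ H := by
  induction items with
  | nil =>
    intro F v hF _ _ s hs i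
    rw [List.map_nil, List.sublist_nil] at hs
    rw [hs, List.prod_nil, mul_one]
    exact hF i
  | cons a l ih =>
    intro F v hF hv h s hs i
    rw [List.map_cons, dfs_cons, Bool.and_eq_true, Bool.and_eq_true] at h
    obtain ⟨⟨h1, h2⟩, h3⟩ := h
    have hg' : ∀ b ∈ l, Good K L b.1 b.2 := fun b hb => hg b (List.mem_cons_of_mem _ hb)
    have hga := hg a List.mem_cons_self
    obtain ⟨G, hG1, hG2⟩ := hga.maj
    rw [List.map_cons, List.sublist_cons_iff] at hs
    rcases hs with hs | ⟨r, rfl, hs⟩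
    · exact ih hg' F v hF hv h3 s hs i
    · rw [List.prod_cons, ← mul_assoc]
      have hv' : (F * a.1).eval ((2 ^ K : ℕ) : ℤ) = ((v * a.2 : ℕ) : ℤ) := by
        rw [eval_mul, hv, hga.ev]; push_cast; rfl
      have hFa : ∀ i, |(F * a.1).coeff i| ≤ (H * L : ℕ) := by
        intro i
        refine (coeff_mul_le H hF hG1 i).trans ?_
        exact_mod_cast Nat.mul_le_mul_left H hG2
      have hFa' := height_of_chk (F * a.1) (H * L) K m N H (v * a.2) hFa hv' hm hK hb h1
      exact ih hg' (F * a.1) (v * a.2) hFa' hv' h2 r hs i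

/-- the value of the polynomial with coefficients `a - b` at `(2^K)^s` -/
def valZ (K s : ℕ) (a b : List ℕ) : ℕ :=
  ev ((2 ^ K) ^ s) a.reverse 0 - ev ((2 ^ K) ^ s) b.reverse 0

/-- check -/
def goodZ (K L s : ℕ) (a b : List ℕ) : Bool :=
  Nat.ble (ev ((2 ^ K) ^ s) b.reverse 0) (ev ((2 ^ K) ^ s) a.reverse 0) &&
    Nat.ble (ev 1 a.reverse 0 + ev 1 b.reverse 0) L

theorem good_of_Z (K L s : ℕ) (hs : 0 < s) (a b : List ℕ) (h : goodZ K L s a b = true) :
    Good K L (expand ℤ s (Z ℤ (lp a) (lp b))) (valZ K s a b) := by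
  rw [goodZ, Bool.and_eq_true] at h
  obtain ⟨h1, h2⟩ := h
  have h1 := Nat.le_of_ble_eq_true h1
  have h2 := Nat.le_of_ble_eq_true h2
  constructor
  · rw [expand_eval, valZ, Nat.cast_sub h1, Z, eval_sub, ← eval_lp, ← eval_lp]
    have key : ∀ l : List ℕ, eval (((2 ^ K : ℕ) : ℤ) ^ s) ((lp l).map (Nat.castRingHom ℤ)) =
        ((eval ((2 ^ K) ^ s) (lp l) : ℕ) : ℤ) := by
      intro l
      have h := eval_natCast_map (Nat.castRingHom ℤ) (lp l) ((2 ^ K) ^ s)
      rw [← Nat.cast_pow, h]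
      simp
    rw [key, key]
  · refine ⟨expand ℕ s (lp a + lp b), ?_, ?_⟩
    · apply Maj.expand _ s hs
      rw [Z]
      exact (Maj.map _).sub (Maj.map _)
    · rw [expand_eval, one_pow, eval_add, eval_lp, eval_lp]
      exact h2

end Q262.Kron
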