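import Pool.Agent.Q262.Height
import Pool.Agent.Q262.Circ.Comp

/-!
Certificates for the height of an integer polynomial from its value at a power of two.
-/

set_option autoImplicit false

open Polynomial Finset

namespace Q262.Kron

open Q262.Hgt

/-- `G` majorizes `F` coefficientwise -/
def Maj (F : ℤ[X]) (G : ℕ[X]) : Prop := ∀ i, |F.coeff i| ≤ (G.coeff i : ℤ)

lemma Maj.mul {F F' : ℤ[X]} {G G' : ℕ[X]} (h : Maj F G) (h' : Maj F' G') :
    Maj (F * F') (G * G') := by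
  intro i
  rw [coeff_mul, coeff_mul]
  push_cast
  refine (Finset.abs_sum_le_sum_abs _ _).trans ?_
  apply Finset.sum_le_sum
  intro x _
  rw [abs_mul]
  exact mul_le_mul (h _) (h' _) (abs_nonneg _) ((abs_nonneg _).trans (h _))

lemma Maj.add {F F' : ℤ[X]} {G G' : ℕ[X]} (h : Maj F G) (h' : Maj F' G') :
    Maj (F + F') (G + G') := by
  intro i
  rw [coeff_add, coeff_add]
  push_cast
  exact (abs_add_le _ _).trans (add_le_add (h i) (h' i))

lemma Maj.sub {F F' : ℤ[X]} {G G' : ℕ[X]} (h : Maj F G) (h' : Maj F' G') :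
    Maj (F - F') (G + G') := by
  intro i
  rw [coeff_sub, coeff_add]
  push_cast
  exact (abs_sub _ _).trans (add_le_add (h i) (h' i))

lemma Maj.map (G : ℕ[X]) : Maj (G.map (Nat.castRingHom ℤ)) G := by
  intro i
  rw [coeff_map]
  simp

lemma Maj.expand {F : ℤ[X]} {G : ℕ[X]} (h : Maj F G) (p : ℕ) (hp : 0 < p) :
    Maj (expand ℤ p F) (expand ℕ p G) := by
  intro i
  rw [coeff_expand hp, coeff_expand hp]
  split_ifs
  · exact h _
  · simp

lemma coeff_le_eval_one (G : ℕ[X]) (i : ℕ) : G.coeff i ≤ G.eval 1 := by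
  rw [eval_eq_sum_range]
  by_cases h : i ≤ G.natDegree
  · have := Finset.single_le_sum (f := fun j => G.coeff j * 1 ^ j) (s := Finset.range (G.natDegree + 1))
      (fun j _ => Nat.zero_le _) (Finset.mem_range.mpr (Nat.lt_succ_of_le h))
    simpa using this
  · rw [coeff_eq_zero_of_natDegree_lt (by omega)]
    exact Nat.zero_le _

lemma Maj.le {F : ℤ[X]} {G : ℕ[X]} (h : Maj F G) (i : ℕ) : |F.coeff i| ≤ (G.eval 1 : ℕ) :=
  (h i).trans (by exact_mod_cast coeff_le_eval_one G i)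

/-- multiplication by a polynomial with small `l¹` norm -/
lemma coeff_mul_le {F P : ℤ[X]} {G : ℕ[X]} (a : ℕ) (hF : ∀ i, |F.coeff i| ≤ a) (h : Maj P G)
    (i : ℕ) : |(F * P).coeff i| ≤ (a * G.eval 1 : ℕ) := by
  rw [coeff_mul]
  refine (Finset.abs_sum_le_sum_abs _ _).trans ?_
  have h1 : ∑ x ∈ antidiagonal i, |F.coeff x.1 * P.coeff x.2| ≤
      ∑ x ∈ antidiagonal i, (a : ℤ) * G.coeff x.2 := by
    apply Finset.sum_le_sum
    intro x _
    rw [abs_mul]
    exact mul_le_mul (hF _) (h _) (abs_nonneg _) (by positivity)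
  refine h1.trans ?_
  rw [← Finset.mul_sum]
  push_cast
  apply mul_le_mul_of_nonneg_left _ (by positivity)
  rw [Finset.Nat.sum_antidiagonal_eq_sum_range_succ (fun _ j => (G.coeff j : ℤ))]
  have hr := Finset.sum_range_reflect (fun j => (G.coeff j : ℤ)) (i + 1)
  simp only [Nat.add_sub_cancel] at hr
  rw [Nat.succ_eq_add_one, hr]
  have h2 : G.eval 1 = ∑ j ∈ range (max (i + 1) (G.natDegree + 1)), G.coeff j := by
    rw [eval_eq_sum_range' (n := max (i + 1) (G.natDegree + 1))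
      (lt_of_lt_of_le (Nat.lt_succ_self _) (le_max_right _ _))]
    simp only [one_pow, mul_one]
  rw [h2]
  push_cast
  apply Finset.sum_le_sum_of_subset_of_nonneg
  · intro j hj
    rw [Finset.mem_range] at hj ⊢
    exact lt_of_lt_of_le hj (le_max_left _ _)
  · intros; positivity

lemma zero_of_eval (B : ℕ) : ∀ D : ℤ[X], (∀ i, |D.coeff i| < B) → D.eval (B : ℤ) = 0 → D = 0 := by
  have key : ∀ (j : ℕ) (D : ℤ[X]), (∀ i, |D.coeff i| < B) → D.eval (B : ℤ) = 0 →
      D.coeff j = 0 := by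
    have step : ∀ D : ℤ[X], (∀ i, |D.coeff i| < B) → D.eval (B : ℤ) = 0 →
        D.coeff 0 = 0 ∧ D.divX.eval (B : ℤ) = 0 := by
      intro D hD h
      have h1 : D.eval (B : ℤ) = D.divX.eval (B : ℤ) * B + D.coeff 0 := by
        conv_lhs => rw [← divX_mul_X_add D]
        simp
      have hB : (0 : ℤ) < B := lt_of_le_of_lt (abs_nonneg _) (hD 0)
      have h2 : (B : ℤ) ∣ D.coeff 0 := ⟨-D.divX.eval (B : ℤ), by rw [h] at h1; linarith⟩
      have h3 : D.coeff 0 = 0 := Int.eq_zero_of_abs_lt_dvd h2 (hD 0)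
      refine ⟨h3, ?_⟩
      rw [h, h3, add_zero] at h1
      rcases mul_eq_zero.mp h1.symm with h4 | h4
      · exact h4
      · exact absurd h4 hB.ne'
    intro j
    induction j with
    | zero => intro D hD h; exact (step D hD h).1
    | succ j ih =>
      intro D hD h
      rw [← coeff_divX]
      exact ih _ (fun i => by rw [coeff_divX]; exact hD _) (step D hD h).2
  intro D hD h
  ext j
  rw [key j D hD h, coeff_zero]

lemma eq_of_eval (B : ℕ) (F G : ℤ[X]) (a b : ℕ) (hF : ∀ i, |F.coeff i| ≤ a)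
    (hG : ∀ i, |G.coeff i| ≤ b) (hab : a + b < B) (h : F.eval (B : ℤ) = G.eval (B : ℤ)) : F = G := by
  rw [← sub_eq_zero]
  apply zero_of_eval B
  · intro i
    rw [coeff_sub]
    have h1 := abs_sub (F.coeff i) (G.coeff i)
    have h2 := hF i
    have h3 := hG i
    have h4 : ((a : ℤ) + b) < B := by exact_mod_cast hab
    linarith
  · rw [eval_sub, h, sub_self]

/-- `1 + B + ⋯ + B^(N-1)` for `B = 2^K` -/
def ones (K N : ℕ) : ℕ := (2 ^ (K * N) - 1) / (2 ^ K - 1)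

lemma ones_eq (K N : ℕ) (hK : 0 < K) : ones K N = ∑ i ∈ range N, (2 ^ K) ^ i := by
  have h : 2 ≤ 2 ^ K := by
    calc 2 = 2 ^ 1 := rfl
      _ ≤ 2 ^ K := Nat.pow_le_pow_right (by norm_num) hK
  rw [Nat.geomSum_eq h, ones, pow_mul]

lemma ones_succ (K N : ℕ) (hK : 0 < K) : ones K (N + 1) = ones K N * 2 ^ K + 1 := by
  rw [ones_eq K _ hK, ones_eq K _ hK, Finset.sum_range_succ', Finset.sum_mul]
  simp [pow_succ]

lemma land_low (K m y x : ℕ) (hm : m ≤ K) (hx : x < 2 ^ K)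
    (h : x &&& (2 ^ K - 2 ^ m + 2 ^ K * y) = 0) : x < 2 ^ m := by
  by_contra hcon
  push Not at hcon
  have h1 : (x &&& (2 ^ K - 2 ^ m + 2 ^ K * y)) / 2 ^ m = 0 := by rw [h]; simp
  rw [Nat.and_div_two_pow] at h1
  have h2 : (2 ^ K - 2 ^ m + 2 ^ K * y) / 2 ^ m = (2 ^ (K - m) - 1) + 2 ^ (K - m) * y := by
    have h3 : 2 ^ K = 2 ^ (K - m) * 2 ^ m := by rw [← pow_add]; congr 1; omega
    have h4 : 2 ^ K - 2 ^ m + 2 ^ K * y = ((2 ^ (K - m) - 1) + 2 ^ (K - m) * y) * 2 ^ m := by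
      rw [add_mul, Nat.sub_mul, one_mul, ← h3]
      congr 1
      rw [h3]; ring
    rw [h4, Nat.mul_div_cancel _ (by positivity)]
  rw [h2] at h1
  have h5 : x / 2 ^ m < 2 ^ (K - m) := by
    rw [Nat.div_lt_iff_lt_mul (by positivity), ← pow_add]
    have : K - m + m = K := by omega
    rw [this]; exact hx
  have h6 : (x / 2 ^ m &&& (2 ^ (K - m) - 1 + 2 ^ (K - m) * y)) % 2 ^ (K - m) = 0 := by
    rw [h1]; simp
  rw [Nat.and_mod_two_pow, Nat.add_mul_mod_self_left, Nat.mod_eq_of_lt h5,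
    Nat.mod_eq_of_lt (Nat.sub_lt (by positivity) one_pos), Nat.and_two_pow_sub_one_eq_mod,
    Nat.mod_eq_of_lt h5] at h6
  have h7 : 1 ≤ x / 2 ^ m := by
    rw [Nat.one_le_div_iff (by positivity)]; exact hcon
  omega

/-- the mask selecting the bits `m, …, K-1` of each digit -/
def mask (K m N : ℕ) : ℕ := (2 ^ K - 2 ^ m) * ones K N

lemma digit_lt (K m N : ℕ) (hK : 0 < K) (hm : m ≤ K) :
    ∀ Y : ℕ, Y &&& mask K m N = 0 → ∀ i < N, Y / (2 ^ K) ^ i % 2 ^ K < 2 ^ m := by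
  induction N with
  | zero => intro Y _ i hi; exact absurd hi (Nat.not_lt_zero i)
  | succ N ih =>
    intro Y h i hi
    have hmask : mask K m (N + 1) = 2 ^ K - 2 ^ m + 2 ^ K * mask K m N := by
      rw [mask, ones_succ K N hK, mask]; ring
    rw [hmask] at h
    rcases i with _ | i
    · have h1 : (Y &&& (2 ^ K - 2 ^ m + 2 ^ K * mask K m N)) % 2 ^ K = 0 := by rw [h]; simp
      rw [Nat.and_mod_two_pow, Nat.add_mul_mod_self_left] at h1
      have h2 : (2 ^ K - 2 ^ m) % 2 ^ K = 2 ^ K - 2 ^ m :=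
        Nat.mod_eq_of_lt (Nat.sub_lt (by positivity) (by positivity))
      rw [h2] at h1
      rw [pow_zero, Nat.div_one]
      apply land_low K m 0 _ hm (Nat.mod_lt _ (by positivity))
      rw [mul_zero, add_zero]
      exact h1
    · have h1 : (Y &&& (2 ^ K - 2 ^ m + 2 ^ K * mask K m N)) / 2 ^ K = 0 := by rw [h]; simp
      rw [Nat.and_div_two_pow, Nat.add_mul_div_left _ _ (by positivity : 0 < 2 ^ K),
        Nat.div_eq_of_lt (Nat.sub_lt (by positivity) (by positivity)), zero_add] at h1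
      have := ih (Y / 2 ^ K) h1 i (by omega)
      rw [pow_succ', ← Nat.div_div_eq_div_mul]
      exact this

lemma sum_digits (B : ℕ) (N Y : ℕ) :
    ∑ i ∈ range N, (Y / B ^ i % B) * B ^ i = Y % B ^ N := by
  induction N with
  | zero => simp [Nat.mod_one]
  | succ N ih => rw [Finset.sum_range_succ, ih, Nat.mod_pow_succ]; ring

/-- The certificate: if `F(B) + H (1 + B + ⋯)` is a natural number whose base-`B` digits are
small, then they are the shifted coefficients of `F`. -/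
theorem coeff_of_check (F : ℤ[X]) (a K m N H Y : ℕ) (ha : ∀ i, |F.coeff i| ≤ a)
    (hY : F.eval ((2 ^ K : ℕ) : ℤ) + H * ones K N = Y) (hlt : Y < 2 ^ (K * N))
    (hmask : Y &&& mask K m N = 0) (hm : m ≤ K) (hK : 0 < K) (hb : a + H + 2 ^ m ≤ 2 ^ K) :
    ∀ i, F.coeff i = if i < N then ((Y / (2 ^ K) ^ i % 2 ^ K : ℕ) : ℤ) - H else 0 := by
  have hdig := digit_lt K m N hK hm Y hmask
  set G : ℤ[X] := ∑ i ∈ range N, C (((Y / (2 ^ K) ^ i % 2 ^ K : ℕ) : ℤ) - H) * X ^ i with hG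
  have hGc : ∀ i, G.coeff i = if i < N then ((Y / (2 ^ K) ^ i % 2 ^ K : ℕ) : ℤ) - H else 0 := by
    intro i
    rw [hG, finsetSum_coeff]
    simp only [coeff_C_mul, coeff_X_pow, mul_ite, mul_one, mul_zero]
    rw [Finset.sum_ite_eq]
    simp only [Finset.mem_range]
  have hGb : ∀ i, |G.coeff i| ≤ ((H + 2 ^ m - 1 : ℕ) : ℤ) := by
    intro i
    rw [hGc]
    have hp : 1 ≤ 2 ^ m := Nat.one_le_two_pow
    split_ifs with h
    · have h1 := hdig i h
      rw [abs_le]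
      constructor <;> [skip; skip] <;> push_cast [Nat.cast_sub (by omega : 1 ≤ H + 2 ^ m)] <;>
        (have h2 : ((Y / (2 ^ K) ^ i % 2 ^ K : ℕ) : ℤ) < 2 ^ m := by exact_mod_cast h1) <;>
        (have h3 : (0 : ℤ) ≤ ((Y / (2 ^ K) ^ i % 2 ^ K : ℕ) : ℤ) := Int.natCast_nonneg _) <;>
        push_cast at h2 h3 <;> omega
    · rw [abs_zero]; positivity
  have hGe : G.eval ((2 ^ K : ℕ) : ℤ) = F.eval ((2 ^ K : ℕ) : ℤ) := by
    rw [hG, eval_finsetSum]
    simp only [eval_mul, eval_C, eval_pow, eval_X, sub_mul, Finset.sum_sub_distrib]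
    rw [← Finset.mul_sum]
    have h1 : ∑ i ∈ range N, ((Y / (2 ^ K) ^ i % 2 ^ K : ℕ) : ℤ) * ((2 ^ K : ℕ) : ℤ) ^ i = Y := by
      have := sum_digits (2 ^ K) N Y
      rw [← pow_mul, Nat.mod_eq_of_lt hlt] at this
      conv_rhs => rw [← this]
      push_cast
      rfl
    have h2 : ((ones K N : ℕ) : ℤ) = ∑ i ∈ range N, ((2 ^ K : ℕ) : ℤ) ^ i := by
      rw [ones_eq K N hK]; push_cast; rfl
    rw [h1, ← h2, ← hY]
    ring
  have hFG : F = G := by
    apply eq_of_eval (2 ^ K) F G a (H + 2 ^ m - 1) ha hGb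
    · have hp : 1 ≤ 2 ^ m := Nat.one_le_two_pow
      omega
    · exact hGe.symm
  intro i
  rw [← hGc, ← hFG]

/-- two-sided check -/
def chk (K N Ho M v : ℕ) : Bool :=
  Nat.beq (Nat.land (v + Ho) M) 0 && Nat.blt (v + Ho) (2 ^ (K * N)) &&
    Nat.ble v Ho && Nat.beq (Nat.land (Ho - v) M) 0

theorem height_of_chk (F : ℤ[X]) (a K m N H v : ℕ) (ha : ∀ i, |F.coeff i| ≤ a)
    (hv : F.eval ((2 ^ K : ℕ) : ℤ) = v) (hm : m ≤ K) (hK : 0 < K) (hb : a + H + 2 ^ m ≤ 2 ^ K)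
    (h : chk K N (H * ones K N) (mask K m N) v = true) : ∀ i, |F.coeff i| ≤ H := by
  rw [chk, Bool.and_eq_true, Bool.and_eq_true, Bool.and_eq_true] at h
  obtain ⟨⟨⟨h1, h2⟩, h3⟩, h4⟩ := h
  have h1 := Nat.eq_of_beq_eq_true h1
  have h2 : _ < _ := Nat.blt_eq.mp h2
  have h3 := Nat.le_of_ble_eq_true h3
  have h4 := Nat.eq_of_beq_eq_true h4
  have c1 := coeff_of_check F a K m N H _ ha (by rw [hv]; push_cast; rfl) h2 h1 hm hK hb
  have c2 := coeff_of_check (-F) a K m N H (H * ones K N - v)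
    (by intro i; rw [coeff_neg, abs_neg]; exact ha i)
    (by rw [eval_neg, hv, Nat.cast_sub h3]; push_cast; ring)
    (by omega) h4 hm hK hb
  intro i
  have d1 := c1 i
  have d2 := c2 i
  rw [coeff_neg] at d2
  rw [abs_le]
  split_ifs at d1 d2 with hi
  · have e1 : (0 : ℤ) ≤ (((v + H * ones K N) / (2 ^ K) ^ i % 2 ^ K : ℕ) : ℤ) := Int.natCast_nonneg _
    have e2 : (0 : ℤ) ≤ (((H * ones K N - v) / (2 ^ K) ^ i % 2 ^ K : ℕ) : ℤ) := Int.natCast_nonneg _
    constructor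
    · rw [d1]; linarith
    · linarith
  · rw [d1]; constructor <;> simp

end Q262.Kron
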