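import Pool.Agent.Q262.Ht.Dfs

/-!
The divisors of `X^5915 - 1`, `5915 = 5 · 7 · 13²`.
-/

set_option autoImplicit false

open Polynomial Finset

namespace Q262.Kron

open Q262.Hgt Q262.Circ Q262.Mono

/-- positive coefficients of `Φ_1` -/
def pl1 : List ℕ := [0, 1]

/-- negative coefficients of `Φ_1` -/
def mi1 : List ℕ := [1, 0]

/-- positive coefficients of `Φ_5` -/
def pl5 : List ℕ := [1, 1, 1, 1, 1]

/-- negative coefficients of `Φ_5` -/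
def mi5 : List ℕ := [0, 0, 0, 0, 0]

/-- positive coefficients of `Φ_7` -/
def pl7 : List ℕ := [1, 1, 1, 1, 1, 1, 1]

/-- negative coefficients of `Φ_7` -/
def mi7 : List ℕ := [0, 0, 0, 0, 0, 0, 0]

/-- positive coefficients of `Φ_13` -/
def pl13 : List ℕ := [1, 1, 1, 1, 1, 1, 1, 1, 1, 1, 1, 1, 1]

/-- negative coefficients of `Φ_13` -/
def mi13 : List ℕ := [0, 0, 0, 0, 0, 0, 0, 0, 0, 0, 0, 0, 0]

/-- positive coefficients of `Φ_35` -/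
def pl35 : List ℕ := [1, 0, 0, 0, 0, 1, 0, 1, 0, 0, 1, 0, 1, 0, 1, 0, 0, 1, 0, 1, 0, 0, 0, 0, 1]

/-- negative coefficients of `Φ_35` -/
def mi35 : List ℕ := [0, 1, 0, 0, 0, 0, 1, 0, 1, 0, 0, 1, 0, 1, 0, 0, 1, 0, 1, 0, 0, 0, 0, 1, 0]

/-- positive coefficients of `Φ_65` -/
def pl65 : List ℕ := [1, 0, 0, 0, 0, 1, 0, 0, 0, 0, 1, 0, 0, 1, 0, 1, 0, 0, 1, 0, 1, 0, 0, 1, 0, 1, 0, 0, 1, 0, 1, 0, 0, 1, 0, 1, 0, 0, 1, 0, 0, 0, 0, 1, 0, 0, 0, 0, 1]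

/-- negative coefficients of `Φ_65` -/
def mi65 : List ℕ := [0, 1, 0, 0, 0, 0, 1, 0, 0, 0, 0, 1, 0, 0, 1, 0, 1, 0, 0, 1, 0, 1, 0, 0, 1, 0, 0, 1, 0, 1, 0, 0, 1, 0, 1, 0, 0, 1, 0, 0, 0, 0, 1, 0, 0, 0, 0, 1, 0]

/-- positive coefficients of `Φ_91` -/
def pl91 : List ℕ := [1, 0, 0, 0, 0, 0, 0, 1, 0, 0, 0, 0, 0, 1, 0, 0, 0, 0, 0, 0, 1, 0, 0, 0, 0, 0, 1, 0, 0, 0, 0, 0, 0, 1, 0, 0, 0, 0, 0, 1, 0, 0, 0, 0, 0, 0, 1, 0, 0, 0, 0, 0, 1, 0, 0, 0, 0, 0, 0, 1, 0, 0, 0, 0, 0, 1, 0, 0, 0, 0, 0, 0, 1]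

/-- negative coefficients of `Φ_91` -/
def mi91 : List ℕ := [0, 1, 0, 0, 0, 0, 0, 0, 1, 0, 0, 0, 0, 0, 0, 1, 0, 0, 0, 0, 0, 0, 1, 0, 0, 0, 0, 0, 0, 1, 0, 0, 0, 0, 0, 0, 1, 0, 0, 0, 0, 0, 0, 1, 0, 0, 0, 0, 0, 0, 1, 0, 0, 0, 0, 0, 0, 1, 0, 0, 0, 0, 0, 0, 1, 0, 0, 0, 0, 0, 0, 1, 0]

/-- positive coefficients of `Φ_455` -/
def pl455 : List ℕ := [1, 1, 1, 1, 1, 0, 0, 0, 0, 0, 0, 0, 0, 0, 0, 0, 0, 0, 0, 0, 1, 1, 1, 1, 1, 0, 0, 0, 0, 0, 0, 0, 0, 0, 0, 1, 1, 1, 1, 1, 0, 0, 0, 0, 0, 0, 0, 0, 0, 0, 0, 0, 0, 0, 0, 1, 1, 1, 1, 1, 0, 0, 0, 0, 0, 1, 1, 1, 1, 1, 1, 1, 0, 0, 0, 0, 0, 0, 0, 0, 0, 0, 0, 0, 0, 0, 0, 0, 1, 1, 1, 2, 2, 2, 2, 1, 0, 0, 0, 0, 0, 0, 0, 1, 0, 0, 0, 0, 0, 0, 0, 0, 0, 0, 0, 0, 0, 0, 0, 0, 0, 0, 0, 1, 1, 1, 2, 2, 2, 2, 2, 1, 1, 0, 0, 0, 0, 0, 0, 0, 0, 0, 0, 0, 0, 0, 0, 0, 0, 0, 0, 0, 0, 0, 0, 0, 1, 1, 2, 2, 2, 2, 2, 1, 1, 1, 0, 0,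 0, 0, 0, 0, 0, 0, 0, 0, 0, 0, 0, 0, 0, 0, 0, 0, 0, 1, 0, 0, 0, 0, 0, 0, 0, 1, 2, 2, 2, 2, 1, 1, 1, 0, 0, 0, 0, 0, 0, 0, 0, 0, 0, 0, 0, 0, 0, 0, 0, 1, 1, 1, 1, 1, 1, 1, 0, 0, 0, 0, 0, 1, 1, 1, 1, 1, 0, 0, 0, 0, 0, 0, 0, 0, 0, 0, 0, 0, 0, 0, 0, 1, 1, 1, 1, 1, 0, 0, 0, 0, 0, 0, 0, 0, 0, 0, 1, 1, 1, 1, 1, 0, 0, 0, 0, 0, 0, 0, 0, 0, 0, 0, 0, 0, 0, 0, 1, 1, 1, 1, 1]

/-- negative coefficients of `Φ_455` -/
def mi455 : List ℕ := [0, 0, 0, 0, 0, 0, 0, 1, 1, 1, 1, 1, 0, 1, 1, 1, 1, 1, 0, 0, 0, 0, 0, 0, 0, 0, 0, 0, 0, 0, 0, 0, 0, 0, 0, 0, 0, 0, 0, 0, 0, 0, 1, 1, 1, 1, 1, 0, 1, 1, 1, 1, 1, 0, 0, 0, 0, 0, 0, 0, 0, 0, 0, 0, 0, 0, 0, 0, 0, 0, 0, 0, 0, 0, 0, 1, 1, 1, 2, 2, 2, 2, 1, 1, 1, 0, 0, 0, 0, 0, 0, 0, 0, 0, 0, 0, 0, 0, 1, 1, 0, 0, 0, 0, 0, 0, 0, 1, 1, 0, 1, 0, 0, 1, 1, 1, 2, 1, 1, 1, 0, 0, 0, 0, 0, 0, 0, 0, 0, 0, 0, 0, 0, 0, 0, 0, 0, 1, 0, 1,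 1, 1, 1, 2, 1, 2, 1, 1, 1, 1, 0, 1, 0, 0, 0, 0, 0, 0, 0, 0, 0, 0, 0, 0, 0, 0, 0, 0, 0, 1, 1, 1, 2, 1, 1, 1, 0, 0, 1, 0, 1, 1, 0, 0, 0, 0, 0, 0, 0, 1, 1, 0, 0, 0, 0, 0, 0, 0, 0, 0, 0, 0, 0, 0, 1, 1, 1, 2, 2, 2, 2, 1, 1, 1, 0, 0, 0, 0, 0, 0, 0, 0, 0, 0, 0, 0, 0, 0, 0, 0, 0, 0, 0, 0, 0, 0, 1, 1, 1, 1, 1, 0, 1, 1, 1, 1, 1, 0, 0, 0, 0, 0, 0, 0, 0, 0, 0, 0, 0, 0, 0, 0, 0, 0, 0, 0, 0, 0, 0, 0, 0, 1, 1, 1, 1, 1, 0, 1, 1, 1, 1, 1, 0, 0, 0, 0, 0, 0, 0]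

lemma cy1 : cyclotomic 1 ℤ = Z ℤ (lp pl1) (lp mi1) := by
  rw [cyclotomic_one, Z, pl1, mi1]
  simp

lemma cy5 : cyclotomic 5 ℤ = Z ℤ (lp pl5) (lp mi5) := by
  have h := cyc_step 1 5 (by norm_num) (by norm_num) pl1 mi1 pl5 mi5 cy1 (2 ^ 20)
    (by decide +kernel)
  norm_num at h
  exact h

lemma cy7 : cyclotomic 7 ℤ = Z ℤ (lp pl7) (lp mi7) := by
  have h := cyc_step 1 7 (by norm_num) (by norm_num) pl1 mi1 pl7 mi7 cy1 (2 ^ 20)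
    (by decide +kernel)
  norm_num at h
  exact h

lemma cy13 : cyclotomic 13 ℤ = Z ℤ (lp pl13) (lp mi13) := by
  have h := cyc_step 1 13 (by norm_num) (by norm_num) pl1 mi1 pl13 mi13 cy1 (2 ^ 20)
    (by decide +kernel)
  norm_num at h
  exact h

lemma cy35 : cyclotomic 35 ℤ = Z ℤ (lp pl35) (lp mi35) := by
  have h := cyc_step 5 7 (by norm_num) (by norm_num) pl5 mi5 pl35 mi35 cy5 (2 ^ 20)
    (by decide +kernel)
  norm_num at h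
  exact h

lemma cy65 : cyclotomic 65 ℤ = Z ℤ (lp pl65) (lp mi65) := by
  have h := cyc_step 5 13 (by norm_num) (by norm_num) pl5 mi5 pl65 mi65 cy5 (2 ^ 20)
    (by decide +kernel)
  norm_num at h
  exact h

lemma cy91 : cyclotomic 91 ℤ = Z ℤ (lp pl91) (lp mi91) := by
  have h := cyc_step 7 13 (by norm_num) (by norm_num) pl7 mi7 pl91 mi91 cy7 (2 ^ 20)
    (by decide +kernel)
  norm_num at h
  exact h

lemma cy455 : cyclotomic 455 ℤ = Z ℤ (lp pl455) (lp mi455) := by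
  have h := cyc_step 35 13 (by norm_num) (by norm_num) pl35 mi35 pl455 mi455 cy35 (2 ^ 20)
    (by decide +kernel)
  norm_num at h
  exact h

/-- value of `Φ_5915` -/
def va5915 : ℕ := valZ 22 13 pl455 mi455

lemma go5915 : Good 22 219 (cyclotomic 5915 ℤ) va5915 := by
  have h := good_of_Z 22 219 13 (by norm_num) pl455 mi455 (by decide +kernel)
  rw [← cy455, cyclotomic_expand_eq_cyclotomic (by norm_num) (by norm_num)] at h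
  exact h

/-- value of `Φ_1183` -/
def va1183 : ℕ := valZ 22 13 pl91 mi91

lemma go1183 : Good 22 219 (cyclotomic 1183 ℤ) va1183 := by
  have h := good_of_Z 22 219 13 (by norm_num) pl91 mi91 (by decide +kernel)
  rw [← cy91, cyclotomic_expand_eq_cyclotomic (by norm_num) (by norm_num)] at h
  exact h

/-- value of `Φ_845` -/
def va845 : ℕ := valZ 22 13 pl65 mi65

lemma go845 : Good 22 219 (cyclotomic 845 ℤ) va845 := by
  have h := good_of_Z 22 219 13 (by norm_num) pl65 mi65 (by decide +kernel)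
  rw [← cy65, cyclotomic_expand_eq_cyclotomic (by norm_num) (by norm_num)] at h
  exact h

/-- value of `Φ_455` -/
def va455 : ℕ := valZ 22 1 pl455 mi455

lemma go455 : Good 22 219 (cyclotomic 455 ℤ) va455 := by
  have h := good_of_Z 22 219 1 (by norm_num) pl455 mi455 (by decide +kernel)
  rw [expand_one, ← cy455] at h
  exact h

/-- value of `Φ_169` -/
def va169 : ℕ := valZ 22 13 pl13 mi13

lemma go169 : Good 22 219 (cyclotomic 169 ℤ) va169 := by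
  have h := good_of_Z 22 219 13 (by norm_num) pl13 mi13 (by decide +kernel)
  rw [← cy13, cyclotomic_expand_eq_cyclotomic (by norm_num) (by norm_num)] at h
  exact h

/-- value of `Φ_91` -/
def va91 : ℕ := valZ 22 1 pl91 mi91

lemma go91 : Good 22 219 (cyclotomic 91 ℤ) va91 := by
  have h := good_of_Z 22 219 1 (by norm_num) pl91 mi91 (by decide +kernel)
  rw [expand_one, ← cy91] at h
  exact h

/-- value of `Φ_65` -/
def va65 : ℕ := valZ 22 1 pl65 mi65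

lemma go65 : Good 22 219 (cyclotomic 65 ℤ) va65 := by
  have h := good_of_Z 22 219 1 (by norm_num) pl65 mi65 (by decide +kernel)
  rw [expand_one, ← cy65] at h
  exact h

/-- value of `Φ_35` -/
def va35 : ℕ := valZ 22 1 pl35 mi35

lemma go35 : Good 22 219 (cyclotomic 35 ℤ) va35 := by
  have h := good_of_Z 22 219 1 (by norm_num) pl35 mi35 (by decide +kernel)
  rw [expand_one, ← cy35] at h
  exact h

/-- value of `Φ_13` -/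
def va13 : ℕ := valZ 22 1 pl13 mi13

lemma go13 : Good 22 219 (cyclotomic 13 ℤ) va13 := by
  have h := good_of_Z 22 219 1 (by norm_num) pl13 mi13 (by decide +kernel)
  rw [expand_one, ← cy13] at h
  exact h

/-- value of `Φ_7` -/
def va7 : ℕ := valZ 22 1 pl7 mi7

lemma go7 : Good 22 219 (cyclotomic 7 ℤ) va7 := by
  have h := good_of_Z 22 219 1 (by norm_num) pl7 mi7 (by decide +kernel)
  rw [expand_one, ← cy7] at h
  exact h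

/-- value of `Φ_5` -/
def va5 : ℕ := valZ 22 1 pl5 mi5

lemma go5 : Good 22 219 (cyclotomic 5 ℤ) va5 := by
  have h := good_of_Z 22 219 1 (by norm_num) pl5 mi5 (by decide +kernel)
  rw [expand_one, ← cy5] at h
  exact h

/-- value of `Φ_1` -/
def va1 : ℕ := valZ 22 1 pl1 mi1

lemma go1 : Good 22 219 (cyclotomic 1 ℤ) va1 := by
  have h := good_of_Z 22 219 1 (by norm_num) pl1 mi1 (by decide +kernel)
  rw [expand_one, ← cy1] at h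
  exact h

/-- the divisors of `5915` -/
def DL : List ℕ := [5915, 1183, 845, 455, 169, 91, 65, 35, 13, 7, 5, 1]

/-- the cyclotomic polynomials with their values -/
noncomputable def itemsL : List (ℤ[X] × ℕ) :=
  [(cyclotomic 5915 ℤ, va5915), (cyclotomic 1183 ℤ, va1183), (cyclotomic 845 ℤ, va845), (cyclotomic 455 ℤ, va455), (cyclotomic 169 ℤ, va169), (cyclotomic 91 ℤ, va91), (cyclotomic 65 ℤ, va65), (cyclotomic 35 ℤ, va35), (cyclotomic 13 ℤ, va13), (cyclotomic 7 ℤ, va7), (cyclotomic 5 ℤ, va5), (cyclotomic 1 ℤ, va1)]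

lemma itemsL_fst : itemsL.map Prod.fst = DL.map fun d => cyclotomic d ℤ := rfl

lemma itemsL_snd : itemsL.map Prod.snd = [va5915, va1183, va845, va455, va169, va91, va65, va35, va13, va7, va5, va1] := rfl

lemma itemsL_good : ∀ a ∈ itemsL, Good 22 219 a.1 a.2 := by
  intro a ha
  simp only [itemsL, List.mem_cons, List.not_mem_nil, or_false] at ha
  rcases ha with rfl | rfl | rfl | rfl | rfl | rfl | rfl | rfl | rfl | rfl | rfl | rfl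
  · exact go5915
  · exact go1183
  · exact go845
  · exact go455
  · exact go169
  · exact go91
  · exact go65
  · exact go35
  · exact go13
  · exact go7
  · exact go5
  · exact go1

/-- the search -/
def search : Bool :=
  force (ones 22 5916) fun o => force (12822 * o) fun Ho => force ((2 ^ 22 - 2 ^ 15) * o) fun M =>
  force va5915 fun v5915 =>
  force va1183 fun v1183 =>
  force va845 fun v845 =>
  force va455 fun v455 =>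
  force va169 fun v169 =>
  force va91 fun v91 =>
  force va65 fun v65 =>
  force va35 fun v35 =>
  force va13 fun v13 =>
  force va7 fun v7 =>
  force va5 fun v5 =>
  force va1 fun v1 =>
  dfs 22 5916 Ho M [v5915, v1183, v845, v455, v169, v91, v65, v35, v13, v7, v5, v1] 1

theorem search_true : search = true := by decide +kernel

end Q262.Kron
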