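import Pool.Agent.Q262.Ht.N5915

/-!
`B(5915) = 12822`.
-/

set_option autoImplicit false

open Polynomial Finset

namespace Q262.Kron

open Q262.Hgt Q262.Circ Q262.Mono

/-- the coefficient `597` of `Φ_5 Φ_7 Φ_13 Φ_455 Φ_845 Φ_1183` -/
def chkB : Bool :=
  force (va5 * va7 * va13 * va455 * va845 * va1183 + 12822 * ones 22 5916) fun Y =>
    Nat.beq (Nat.land Y (mask 22 15 5916)) 0 && Nat.blt Y (2 ^ (22 * 5916)) &&
    Nat.beq (Y / (2 ^ 22) ^ 597 % 2 ^ 22) 25644

theorem chkB_true : chkB = true := by decide +kernel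

attribute [local irreducible] ones va1 va5 va7 va13 va35 va65 va91 va169 va455 va845 va1183 va5915

theorem search' : dfs 22 5916 (12822 * ones 22 5916) (mask 22 15 5916) (itemsL.map Prod.snd) 1 =
    true := by
  have h := search_true
  simp only [search, force_eq] at h
  exact h

theorem height_sublist (s : List ℤ[X]) (hs : s.Sublist (DL.map fun d => cyclotomic d ℤ)) :
    ∀ i, |s.prod.coeff i| ≤ (12822 : ℕ) := by
  intro i
  have h := dfs_sound 22 15 5916 12822 219 (by norm_num) (by norm_num) (by norm_num) itemsL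
    itemsL_good 1 1 (by intro i; rw [coeff_one]; split_ifs <;> simp) (by simp) search' s hs i
  rw [one_mul] at h
  exact h

lemma divisors_5915 : Nat.divisors 5915 = DL.toFinset := by decide +kernel

lemma DL_nodup : DL.Nodup := by decide +kernel

lemma dvd_iff_prod (n : ℕ) (hn : 0 < n) (f : ℤ[X]) :
    f ∣ X ^ n - 1 ↔ f ∣ ∏ d ∈ n.divisors, cyclotomic d ℤ := by
  rw [prod_cyclotomic_eq_X_pow_sub_one hn]

lemma mem_divisorHeights (n : ℕ) (hn : 0 < n) (h : ℕ) : h ∈ divisorHeights n ↔
    ∃ f : ℤ[X], f ∣ ∏ d ∈ n.divisors, cyclotomic d ℤ ∧ height f = h := by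
  simp only [divisorHeights, Set.mem_ofPred_eq, dvd_iff_prod n hn]

theorem height_divisor (f : ℤ[X]) (hf : f ∣ ∏ d ∈ Nat.divisors 5915, cyclotomic d ℤ) :
    height f ≤ 12822 := by
  obtain ⟨t, ht, hassoc⟩ := dvd_prod_assoc (Nat.divisors 5915) (fun d => cyclotomic d ℤ)
    (fun i hi => cyc_prime i (Nat.pos_of_mem_divisors hi)) f hf
  rw [height_assoc hassoc, height_le_iff]
  have h1 : t = (DL.filter (· ∈ t)).toFinset := by
    ext d
    rw [List.mem_toFinset, List.mem_filter]
    constructor
    · intro hd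
      have := ht hd
      rw [divisors_5915, List.mem_toFinset] at this
      exact ⟨this, by simpa using hd⟩
    · rintro ⟨_, h⟩
      simpa using h
  rw [h1, List.prod_toFinset _ (DL_nodup.filter _)]
  apply height_sublist
  exact List.filter_sublist.map _

/-- the extremal divisor -/
noncomputable def best : ℤ[X] :=
  cyclotomic 5 ℤ * cyclotomic 7 ℤ * cyclotomic 13 ℤ * cyclotomic 455 ℤ * cyclotomic 845 ℤ *
    cyclotomic 1183 ℤ

lemma best_dvd : best ∣ ∏ d ∈ Nat.divisors 5915, cyclotomic d ℤ := by
  have h : ∏ d ∈ ({5, 7, 13, 455, 845, 1183} : Finset ℕ), cyclotomic d ℤ = best := by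
    rw [best]
    simp only [Finset.prod_insert, Finset.prod_singleton, Finset.mem_insert, Finset.mem_singleton,
      Nat.reduceEqDiff, or_self, not_false_eq_true, mul_assoc]
  rw [← h]
  apply Finset.prod_dvd_prod_of_subset
  rw [divisors_5915]
  decide +kernel

lemma best_eval : best.eval ((2 ^ 22 : ℕ) : ℤ) =
    ((va5 * va7 * va13 * va455 * va845 * va1183 : ℕ) : ℤ) := by
  rw [best]
  simp only [eval_mul]
  rw [go5.ev, go7.ev, go13.ev, go455.ev, go845.ev, go1183.ev]
  push_cast
  rfl

theorem best_coeff : best.coeff 597 = 12822 := by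
  have h := chkB_true
  simp only [chkB, force_eq, Bool.and_eq_true] at h
  obtain ⟨⟨h1, h2⟩, h3⟩ := h
  have h1 := Nat.eq_of_beq_eq_true h1
  have h2 : _ < _ := Nat.blt_eq.mp h2
  have h3 := Nat.eq_of_beq_eq_true h3
  have hb : ∀ i, |best.coeff i| ≤ (12822 : ℕ) := by
    rw [← height_le_iff]
    exact height_divisor best best_dvd
  have key := coeff_of_check best 12822 22 15 5916 12822 _ hb
    (by rw [best_eval, ← Nat.cast_mul, ← Nat.cast_add]) h2 h1 (by norm_num) (by norm_num) (by norm_num) 597
  rw [key, if_pos (by norm_num), h3]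
  norm_num

theorem height_best : height best = 12822 := by
  apply le_antisymm (height_divisor best best_dvd)
  have h := natAbs_coeff_le best 597
  rw [best_coeff] at h
  exact h

theorem isGreatest_5915 : IsGreatest (divisorHeights 5915) 12822 := by
  constructor
  · rw [mem_divisorHeights 5915 (by norm_num)]
    exact ⟨best, best_dvd, height_best⟩
  · intro h hh
    rw [mem_divisorHeights 5915 (by norm_num)] at hh
    obtain ⟨f, hf, rfl⟩ := hh
    exact height_divisor f hf

theorem maxDivisorHeight_5915 : maxDivisorHeight 5915 = 12822 :=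
  (isGreatest_maxDivisorHeight 5915 (by norm_num)).unique isGreatest_5915

end Q262.Kron
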