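import Pool.Agent.Q262.Ht.Kron
import Pool.Agent.Q262.CycStep

/-!
Values and majorants of `Φ_p`, `Φ_{pq}` and their expansions.
-/

set_option autoImplicit false

open Polynomial Finset

namespace Q262.Kron

open Q262.Hgt Q262.Circ

/-- `1 + X + ⋯ + X^(m-1)` with natural coefficients -/
noncomputable def g (m : ℕ) : ℕ[X] := ∑ i ∈ range m, X ^ i

@[simp] lemma g_eval_one (m : ℕ) : (g m).eval 1 = m := by
  simp [g, eval_finsetSum]

lemma g_map (m : ℕ) : (g m).map (Nat.castRingHom ℤ) = ∑ i ∈ range m, (X : ℤ[X]) ^ i := by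
  simp [g, Polynomial.map_sum]

lemma g_map_mul (m : ℕ) : (g m).map (Nat.castRingHom ℤ) * (X - 1) = X ^ m - 1 := by
  rw [g_map, geom_sum_mul]

lemma map_ne : (X - 1 : ℤ[X]) ≠ 0 := X_sub_C_ne_zero 1

lemma cyc_prime_eq (p : ℕ) (hp : p.Prime) :
    cyclotomic p ℤ = (g p).map (Nat.castRingHom ℤ) := by
  have := Fact.mk hp
  rw [g_map, cyclotomic_prime]

lemma maj_prime (p : ℕ) (hp : p.Prime) : Maj (cyclotomic p ℤ) (g p) := by
  rw [cyc_prime_eq p hp]; exact Maj.map _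

lemma pow_sub_one_ne {p : ℕ} (hp : 0 < p) : (X ^ p - 1 : ℤ[X]) ≠ 0 :=
  (monic_X_pow_sub_C 1 hp.ne').ne_zero

lemma phi_mul (p q : ℕ) (hp : p.Prime) (hq : q.Prime) (hpq : p ≠ q) :
    cyclotomic (p * q) ℤ * ((X ^ p - 1) * (X ^ q - 1)) = (X ^ (p * q) - 1) * (X - 1) := by
  have := Fact.mk hp
  have h1 := cyclotomic_expand_eq_cyclotomic_mul (p := q) (n := p) hq
    (fun h => hpq ((Nat.prime_dvd_prime_iff_eq hq hp).mp h).symm) ℤ
  have h2 : cyclotomic p ℤ * (X - 1) = X ^ p - 1 := cyclotomic_prime_mul_X_sub_one ℤ p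
  have h3 : expand ℤ q (cyclotomic p ℤ) * (X ^ q - 1) = X ^ (p * q) - 1 := by
    have := congrArg (expand ℤ q) h2
    rw [map_mul, map_sub, map_sub, expand_X, map_one, map_pow, expand_X] at this
    rw [this, ← pow_mul, mul_comm]
  rw [← h2, ← h3, h1]
  ring

/-- the value of `Φ_{pq}` at `y` -/
def phiV (p q y : ℕ) : ℕ := (y ^ (p * q) - 1) * (y - 1) / ((y ^ p - 1) * (y ^ q - 1))

lemma phiV_eq (p q y : ℕ) (hp : p.Prime) (hq : q.Prime) (hpq : p ≠ q) (hy : 2 ≤ y) :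
    (cyclotomic (p * q) ℤ).eval (y : ℤ) = phiV p q y := by
  have h := congrArg (Polynomial.eval (y : ℤ)) (phi_mul p q hp hq hpq)
  simp only [eval_mul, eval_sub, eval_pow, eval_X, eval_one] at h
  have hpow : ∀ n, n ≠ 0 → 2 ≤ y ^ n := fun n hn =>
    hy.trans (Nat.le_self_pow hn y)
  have c1 := hpow p hp.ne_zero
  have c2 := hpow q hq.ne_zero
  have c3 := hpow (p * q) (mul_ne_zero hp.ne_zero hq.ne_zero)
  have e1 : ((y : ℤ) ^ p - 1) = ((y ^ p - 1 : ℕ) : ℤ) := by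
    rw [Nat.cast_sub (by omega)]; push_cast; rfl
  have e2 : ((y : ℤ) ^ q - 1) = ((y ^ q - 1 : ℕ) : ℤ) := by
    rw [Nat.cast_sub (by omega)]; push_cast; rfl
  have e3 : ((y : ℤ) ^ (p * q) - 1) = ((y ^ (p * q) - 1 : ℕ) : ℤ) := by
    rw [Nat.cast_sub (by omega)]; push_cast; rfl
  have e4 : ((y : ℤ) - 1) = ((y - 1 : ℕ) : ℤ) := by
    rw [Nat.cast_sub (by omega)]; push_cast; rfl
  rw [e1, e2, e3, e4] at h
  have hpos : 0 < (cyclotomic (p * q) ℤ).eval (y : ℤ) := by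
    by_contra hcon
    push Not at hcon
    have h5 : (0 : ℤ) < ((y ^ (p * q) - 1 : ℕ) : ℤ) * ((y - 1 : ℕ) : ℤ) := by
      apply mul_pos
      · have : 0 < y ^ (p * q) - 1 := by omega
        exact_mod_cast this
      · have : 0 < y - 1 := by omega
        exact_mod_cast this
    have h6 : (0 : ℤ) ≤ ((y ^ p - 1 : ℕ) : ℤ) * ((y ^ q - 1 : ℕ) : ℤ) := by positivity
    have := mul_nonpos_of_nonpos_of_nonneg hcon h6
    rw [h] at this
    linarith
  obtain ⟨e, he⟩ := Int.eq_ofNat_of_zero_le hpos.le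
  rw [he] at h ⊢
  have h7 : e * ((y ^ p - 1) * (y ^ q - 1)) = (y ^ (p * q) - 1) * (y - 1) := by exact_mod_cast h
  have h8 : 0 < (y ^ p - 1) * (y ^ q - 1) := by
    apply Nat.mul_pos <;> omega
  rw [phiV, ← h7, Nat.mul_div_cancel _ h8]

/-- the value of `Φ_p` at `y` -/
def geoV (p y : ℕ) : ℕ := (y ^ p - 1) / (y - 1)

lemma geoV_eq (p y : ℕ) (hp : p.Prime) (hy : 2 ≤ y) :
    (cyclotomic p ℤ).eval (y : ℤ) = geoV p y := by
  rw [cyc_prime_eq p hp, g_map, eval_finsetSum, geoV, ← Nat.geomSum_eq hy]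
  simp

lemma expand_sub_one (p n : ℕ) : expand ℤ p (X ^ n - 1) = X ^ (p * n) - 1 := by
  rw [map_sub, map_pow, expand_X, map_one, ← pow_mul]

end Q262.Kron
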