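import Pool.Agent.Q262.Ht.Cert
import Pool.Agent.Q262.CycStep

/-!
The divisors of `X^10374 - 1`, `10374 = 2 · 3 · 7 · 13 · 19`.
-/

set_option autoImplicit false

open Polynomial Finset

namespace Q262.Kron

open Q262.Hgt Q262.Circ

lemma step (e p e' : ℕ) (he : e * p = e') (l : List ℕ) (hp : p.Prime) (hl : ∀ d ∈ l, ¬ p ∣ d)
    (h : xe e = (l.map fun d => cyclotomic d ℤ).prod) :
    xe e' =
      (l.map fun d => cyclotomic d ℤ).prod * (l.map fun d => cyclotomic (d * p) ℤ).prod := by
  rw [← he, xe]
  rw [xe] at h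
  have h1 := congrArg (expand ℤ p) h
  rw [map_sub, map_pow, expand_X, map_one, ← pow_mul, mul_comm p e] at h1
  rw [h1, map_list_prod]
  clear h h1 he
  induction l with
  | nil => simp
  | cons a l ih =>
    simp only [List.map_cons, List.prod_cons]
    rw [ih fun d hd => hl d (List.mem_cons_of_mem _ hd),
      cyclotomic_expand_eq_cyclotomic_mul hp (hl a List.mem_cons_self)]
    ring

lemma x1 : xe 1 = ([1].map fun d => cyclotomic d ℤ).prod := by
  simp [xe, cyclotomic_one]

lemma x2 : xe 2 = ([1, 2].map fun d => cyclotomic d ℤ).prod := by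
  have h := step 1 2 2 (by norm_num) [1] (by norm_num) (by decide) x1
  rw [h]
  simp only [List.map_cons, List.map_nil, List.prod_cons, List.prod_nil, mul_one]

lemma x3 : xe 3 = ([1, 3].map fun d => cyclotomic d ℤ).prod := by
  have h := step 1 3 3 (by norm_num) [1] (by norm_num) (by decide) x1
  rw [h]
  simp only [List.map_cons, List.map_nil, List.prod_cons, List.prod_nil, mul_one]

lemma x7 : xe 7 = ([1, 7].map fun d => cyclotomic d ℤ).prod := by
  have h := step 1 7 7 (by norm_num) [1] (by norm_num) (by decide) x1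
  rw [h]
  simp only [List.map_cons, List.map_nil, List.prod_cons, List.prod_nil, mul_one]

lemma x13 : xe 13 = ([1, 13].map fun d => cyclotomic d ℤ).prod := by
  have h := step 1 13 13 (by norm_num) [1] (by norm_num) (by decide) x1
  rw [h]
  simp only [List.map_cons, List.map_nil, List.prod_cons, List.prod_nil, mul_one]

lemma x19 : xe 19 = ([1, 19].map fun d => cyclotomic d ℤ).prod := by
  have h := step 1 19 19 (by norm_num) [1] (by norm_num) (by decide) x1
  rw [h]
  simp only [List.map_cons, List.map_nil, List.prod_cons, List.prod_nil, mul_one]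

lemma x6 : xe 6 = ([1, 2, 3, 6].map fun d => cyclotomic d ℤ).prod := by
  have h := step 2 3 6 (by norm_num) [1, 2] (by norm_num) (by decide) x2
  rw [h]
  simp only [List.map_cons, List.map_nil, List.prod_cons, List.prod_nil, mul_one]
  norm_num
  ring

lemma x14 : xe 14 = ([1, 2, 7, 14].map fun d => cyclotomic d ℤ).prod := by
  have h := step 2 7 14 (by norm_num) [1, 2] (by norm_num) (by decide) x2
  rw [h]
  simp only [List.map_cons, List.map_nil, List.prod_cons, List.prod_nil, mul_one]
  norm_num
  ring

lemma x26 : xe 26 = ([1, 2, 13, 26].map fun d => cyclotomic d ℤ).prod := by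
  have h := step 2 13 26 (by norm_num) [1, 2] (by norm_num) (by decide) x2
  rw [h]
  simp only [List.map_cons, List.map_nil, List.prod_cons, List.prod_nil, mul_one]
  norm_num
  ring

lemma x38 : xe 38 = ([1, 2, 19, 38].map fun d => cyclotomic d ℤ).prod := by
  have h := step 2 19 38 (by norm_num) [1, 2] (by norm_num) (by decide) x2
  rw [h]
  simp only [List.map_cons, List.map_nil, List.prod_cons, List.prod_nil, mul_one]
  norm_num
  ring

lemma x21 : xe 21 = ([1, 3, 7, 21].map fun d => cyclotomic d ℤ).prod := by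
  have h := step 3 7 21 (by norm_num) [1, 3] (by norm_num) (by decide) x3
  rw [h]
  simp only [List.map_cons, List.map_nil, List.prod_cons, List.prod_nil, mul_one]
  norm_num
  ring

lemma x39 : xe 39 = ([1, 3, 13, 39].map fun d => cyclotomic d ℤ).prod := by
  have h := step 3 13 39 (by norm_num) [1, 3] (by norm_num) (by decide) x3
  rw [h]
  simp only [List.map_cons, List.map_nil, List.prod_cons, List.prod_nil, mul_one]
  norm_num
  ring

lemma x57 : xe 57 = ([1, 3, 19, 57].map fun d => cyclotomic d ℤ).prod := by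
  have h := step 3 19 57 (by norm_num) [1, 3] (by norm_num) (by decide) x3
  rw [h]
  simp only [List.map_cons, List.map_nil, List.prod_cons, List.prod_nil, mul_one]
  norm_num
  ring

lemma x91 : xe 91 = ([1, 7, 13, 91].map fun d => cyclotomic d ℤ).prod := by
  have h := step 7 13 91 (by norm_num) [1, 7] (by norm_num) (by decide) x7
  rw [h]
  simp only [List.map_cons, List.map_nil, List.prod_cons, List.prod_nil, mul_one]
  norm_num
  ring

lemma x133 : xe 133 = ([1, 7, 19, 133].map fun d => cyclotomic d ℤ).prod := by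
  have h := step 7 19 133 (by norm_num) [1, 7] (by norm_num) (by decide) x7
  rw [h]
  simp only [List.map_cons, List.map_nil, List.prod_cons, List.prod_nil, mul_one]
  norm_num
  ring

lemma x247 : xe 247 = ([1, 13, 19, 247].map fun d => cyclotomic d ℤ).prod := by
  have h := step 13 19 247 (by norm_num) [1, 13] (by norm_num) (by decide) x13
  rw [h]
  simp only [List.map_cons, List.map_nil, List.prod_cons, List.prod_nil, mul_one]
  norm_num
  ring

lemma x42 : xe 42 = ([1, 2, 3, 6, 7, 14, 21, 42].map fun d => cyclotomic d ℤ).prod := by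
  have h := step 6 7 42 (by norm_num) [1, 2, 3, 6] (by norm_num) (by decide) x6
  rw [h]
  simp only [List.map_cons, List.map_nil, List.prod_cons, List.prod_nil, mul_one]
  norm_num
  ring

lemma x78 : xe 78 = ([1, 2, 3, 6, 13, 26, 39, 78].map fun d => cyclotomic d ℤ).prod := by
  have h := step 6 13 78 (by norm_num) [1, 2, 3, 6] (by norm_num) (by decide) x6
  rw [h]
  simp only [List.map_cons, List.map_nil, List.prod_cons, List.prod_nil, mul_one]
  norm_num
  ring

lemma x114 : xe 114 = ([1, 2, 3, 6, 19, 38, 57, 114].map fun d => cyclotomic d ℤ).prod := by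
  have h := step 6 19 114 (by norm_num) [1, 2, 3, 6] (by norm_num) (by decide) x6
  rw [h]
  simp only [List.map_cons, List.map_nil, List.prod_cons, List.prod_nil, mul_one]
  norm_num
  ring

lemma x182 : xe 182 = ([1, 2, 7, 14, 13, 26, 91, 182].map fun d => cyclotomic d ℤ).prod := by
  have h := step 14 13 182 (by norm_num) [1, 2, 7, 14] (by norm_num) (by decide) x14
  rw [h]
  simp only [List.map_cons, List.map_nil, List.prod_cons, List.prod_nil, mul_one]
  norm_num
  ring

lemma x266 : xe 266 = ([1, 2, 7, 14, 19, 38, 133, 266].map fun d => cyclotomic d ℤ).prod := by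
  have h := step 14 19 266 (by norm_num) [1, 2, 7, 14] (by norm_num) (by decide) x14
  rw [h]
  simp only [List.map_cons, List.map_nil, List.prod_cons, List.prod_nil, mul_one]
  norm_num
  ring

lemma x494 : xe 494 = ([1, 2, 13, 26, 19, 38, 247, 494].map fun d => cyclotomic d ℤ).prod := by
  have h := step 26 19 494 (by norm_num) [1, 2, 13, 26] (by norm_num) (by decide) x26
  rw [h]
  simp only [List.map_cons, List.map_nil, List.prod_cons, List.prod_nil, mul_one]
  norm_num
  ring

lemma x273 : xe 273 = ([1, 3, 7, 21, 13, 39, 91, 273].map fun d => cyclotomic d ℤ).prod := by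
  have h := step 21 13 273 (by norm_num) [1, 3, 7, 21] (by norm_num) (by decide) x21
  rw [h]
  simp only [List.map_cons, List.map_nil, List.prod_cons, List.prod_nil, mul_one]
  norm_num
  ring

lemma x399 : xe 399 = ([1, 3, 7, 21, 19, 57, 133, 399].map fun d => cyclotomic d ℤ).prod := by
  have h := step 21 19 399 (by norm_num) [1, 3, 7, 21] (by norm_num) (by decide) x21
  rw [h]
  simp only [List.map_cons, List.map_nil, List.prod_cons, List.prod_nil, mul_one]
  norm_num
  ring

lemma x741 : xe 741 = ([1, 3, 13, 39, 19, 57, 247, 741].map fun d => cyclotomic d ℤ).prod := by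
  have h := step 39 19 741 (by norm_num) [1, 3, 13, 39] (by norm_num) (by decide) x39
  rw [h]
  simp only [List.map_cons, List.map_nil, List.prod_cons, List.prod_nil, mul_one]
  norm_num
  ring

lemma x1729 : xe 1729 = ([1, 7, 13, 91, 19, 133, 247, 1729].map fun d => cyclotomic d ℤ).prod := by
  have h := step 91 19 1729 (by norm_num) [1, 7, 13, 91] (by norm_num) (by decide) x91
  rw [h]
  simp only [List.map_cons, List.map_nil, List.prod_cons, List.prod_nil, mul_one]
  norm_num
  ring

lemma x546 : xe 546 = ([1, 2, 3, 6, 7, 14, 21, 42, 13, 26, 39, 78, 91, 182, 273, 546].map fun d => cyclotomic d ℤ).prod := by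
  have h := step 42 13 546 (by norm_num) [1, 2, 3, 6, 7, 14, 21, 42] (by norm_num) (by decide) x42
  rw [h]
  simp only [List.map_cons, List.map_nil, List.prod_cons, List.prod_nil, mul_one]
  norm_num
  ring

lemma x798 : xe 798 = ([1, 2, 3, 6, 7, 14, 21, 42, 19, 38, 57, 114, 133, 266, 399, 798].map fun d => cyclotomic d ℤ).prod := by
  have h := step 42 19 798 (by norm_num) [1, 2, 3, 6, 7, 14, 21, 42] (by norm_num) (by decide) x42
  rw [h]
  simp only [List.map_cons, List.map_nil, List.prod_cons, List.prod_nil, mul_one]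
  norm_num
  ring

lemma x1482 : xe 1482 = ([1, 2, 3, 6, 13, 26, 39, 78, 19, 38, 57, 114, 247, 494, 741, 1482].map fun d => cyclotomic d ℤ).prod := by
  have h := step 78 19 1482 (by norm_num) [1, 2, 3, 6, 13, 26, 39, 78] (by norm_num) (by decide) x78
  rw [h]
  simp only [List.map_cons, List.map_nil, List.prod_cons, List.prod_nil, mul_one]
  norm_num
  ring

lemma x3458 : xe 3458 = ([1, 2, 7, 14, 13, 26, 91, 182, 19, 38, 133, 266, 247, 494, 1729, 3458].map fun d => cyclotomic d ℤ).prod := by
  have h := step 182 19 3458 (by norm_num) [1, 2, 7, 14, 13, 26, 91, 182] (by norm_num) (by decide) x182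
  rw [h]
  simp only [List.map_cons, List.map_nil, List.prod_cons, List.prod_nil, mul_one]
  norm_num
  ring

lemma x5187 : xe 5187 = ([1, 3, 7, 21, 13, 39, 91, 273, 19, 57, 133, 399, 247, 741, 1729, 5187].map fun d => cyclotomic d ℤ).prod := by
  have h := step 273 19 5187 (by norm_num) [1, 3, 7, 21, 13, 39, 91, 273] (by norm_num) (by decide) x273
  rw [h]
  simp only [List.map_cons, List.map_nil, List.prod_cons, List.prod_nil, mul_one]
  norm_num
  ring

lemma x10374 : xe 10374 = ([1, 2, 3, 6, 7, 14, 21, 42, 13, 26, 39, 78, 91, 182, 273, 546, 19, 38, 57, 114, 133, 266, 399, 798, 247, 494, 741, 1482, 1729, 3458, 5187, 10374].map fun d => cyclotomic d ℤ).prod := by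
  have h := step 546 19 10374 (by norm_num) [1, 2, 3, 6, 7, 14, 21, 42, 13, 26, 39, 78, 91, 182, 273, 546] (by norm_num) (by decide) x546
  rw [h]
  simp only [List.map_cons, List.map_nil, List.prod_cons, List.prod_nil, mul_one]
  norm_num
  ring

/-- product of `Φ_d` over the divisors `d` of `10374` with an odd number of prime factors -/
noncomputable def polO : ℤ[X] :=
  cyclotomic 2 ℤ * cyclotomic 3 ℤ * cyclotomic 7 ℤ * cyclotomic 13 ℤ * cyclotomic 19 ℤ * cyclotomic 42 ℤ * cyclotomic 78 ℤ * cyclotomic 114 ℤ * cyclotomic 182 ℤ * cyclotomic 266 ℤ * cyclotomic 494 ℤ * cyclotomic 273 ℤ * cyclotomic 399 ℤ * cyclotomic 741 ℤ * cyclotomic 1729 ℤ * cyclotomic 10374 ℤ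

/-- product of `Φ_d` over the divisors `d` of `10374` with an even number of prime factors -/
noncomputable def polE : ℤ[X] :=
  cyclotomic 1 ℤ * cyclotomic 6 ℤ * cyclotomic 14 ℤ * cyclotomic 26 ℤ * cyclotomic 38 ℤ * cyclotomic 21 ℤ * cyclotomic 39 ℤ * cyclotomic 57 ℤ * cyclotomic 91 ℤ * cyclotomic 133 ℤ * cyclotomic 247 ℤ * cyclotomic 546 ℤ * cyclotomic 798 ℤ * cyclotomic 1482 ℤ * cyclotomic 3458 ℤ * cyclotomic 5187 ℤ

/-- exponents -/
def numO : List (ℕ × ℕ) :=
  [(2, 8), (3, 8), (7, 8), (13, 8), (19, 8), (42, 2), (78, 2), (114, 2), (182, 2), (266, 2), (494, 2), (273, 2), (399, 2), (741, 2), (1729, 2), (10374, 1)]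

/-- exponents -/
def denO : List (ℕ × ℕ) :=
  [(1, 16), (6, 4), (14, 4), (26, 4), (38, 4), (21, 4), (39, 4), (57, 4), (91, 4), (133, 4), (247, 4), (546, 1), (798, 1), (1482, 1), (3458, 1), (5187, 1)]

/-- exponents -/
def numE : List (ℕ × ℕ) :=
  [(1, 16), (6, 4), (14, 4), (26, 4), (38, 4), (21, 4), (39, 4), (57, 4), (91, 4), (133, 4), (247, 4), (546, 1), (798, 1), (1482, 1), (3458, 1), (5187, 1)]

/-- exponents -/
def denE : List (ℕ × ℕ) :=
  [(2, 8), (3, 8), (7, 8), (13, 8), (19, 8), (42, 2), (78, 2), (114, 2), (182, 2), (266, 2), (494, 2), (273, 2), (399, 2), (741, 2), (1729, 2)]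

lemma prodX_append (a b : List (ℕ × ℕ)) : prodX (a ++ b) = prodX a * prodX b := by
  simp [prodX]

lemma polO_polE : polO * polE = xe 10374 := by
  rw [polO, polE, x10374]
  simp only [List.map_cons, List.map_nil, List.prod_cons, List.prod_nil, mul_one]
  ring

lemma polE_mul : polE * prodX denE = prodX numE := by
  rw [polE, denE, numE]
  simp only [prodX_cons', prodX_nil, mul_one]
  rw [x1, x2, x3, x7, x13, x19, x6, x14, x26, x38, x21, x39, x57, x91, x133, x247, x42, x78, x114, x182, x266, x494, x273, x399, x741, x1729, x546, x798, x1482, x3458, x5187]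
  simp only [List.map_cons, List.map_nil, List.prod_cons, List.prod_nil, mul_one]
  ring

lemma numO_eq : numO = denE ++ [(10374, 1)] := by decide

lemma denO_eq : denO = numE := by rw [denO, numE]

lemma prodX_one (e : ℕ) : prodX [(e, 1)] = xe e := by
  rw [prodX_cons', prodX_nil, mul_one, pow_one]

lemma aux (a b c : ℤ[X]) (h : a * b = c) (x y : ℤ[X]) (h2 : b * x = y) : a * y = x * c := by
  rw [← h2, ← h]; ring

lemma polO_mul : polO * prodX denO = prodX numO := by
  rw [denO_eq, numO_eq, prodX_append, prodX_one]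
  exact aux polO polE (xe 10374) polO_polE (prodX denE) (prodX numE) polE_mul

end Q262.Kron
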