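import Pool.Agent.Q262.Ht.QuatLemma
import Pool.Agent.Q262.Ht.Sq5

/-!
The coefficients of `Φ_n` and of `(X^n - 1) / Φ_n` for `n = 81653 = 11 · 13 · 571`.
-/

set_option autoImplicit false

open Polynomial Finset

namespace Q262.Quat

open Q262.Hgt Q262.Circ Q262.Kron

lemma prodX_cons1 (e : ℕ) (l : List (ℕ × ℕ)) : prodX ((e, 1) :: l) = xe e * prodX l := by
  rw [prodX_cons', pow_one]

lemma x1 : xe 1 = ([1].map fun d => cyclotomic d ℤ).prod := by
  simp [xe, cyclotomic_one]

lemma x11 : xe 11 = ([1, 11].map fun d => cyclotomic d ℤ).prod := by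
  have h := step 1 11 11 (by norm_num) [1] (by norm_num) (by decide) x1
  rw [h]
  simp only [List.map_cons, List.map_nil, List.prod_cons, List.prod_nil, mul_one]

lemma x13 : xe 13 = ([1, 13].map fun d => cyclotomic d ℤ).prod := by
  have h := step 1 13 13 (by norm_num) [1] (by norm_num) (by decide) x1
  rw [h]
  simp only [List.map_cons, List.map_nil, List.prod_cons, List.prod_nil, mul_one]

lemma x571 : xe 571 = ([1, 571].map fun d => cyclotomic d ℤ).prod := by
  have h := step 1 571 571 (by norm_num) [1] (by norm_num) (by decide) x1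
  rw [h]
  simp only [List.map_cons, List.map_nil, List.prod_cons, List.prod_nil, mul_one]

lemma x143 : xe 143 = ([1, 11, 13, 143].map fun d => cyclotomic d ℤ).prod := by
  have h := step 11 13 143 (by norm_num) [1, 11] (by norm_num) (by decide) x11
  rw [h]
  simp only [List.map_cons, List.map_nil, List.prod_cons, List.prod_nil, mul_one]
  norm_num
  ring

lemma x6281 : xe 6281 = ([1, 11, 571, 6281].map fun d => cyclotomic d ℤ).prod := by
  have h := step 11 571 6281 (by norm_num) [1, 11] (by norm_num) (by decide) x11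
  rw [h]
  simp only [List.map_cons, List.map_nil, List.prod_cons, List.prod_nil, mul_one]
  norm_num
  ring

lemma x7423 : xe 7423 = ([1, 13, 571, 7423].map fun d => cyclotomic d ℤ).prod := by
  have h := step 13 571 7423 (by norm_num) [1, 13] (by norm_num) (by decide) x13
  rw [h]
  simp only [List.map_cons, List.map_nil, List.prod_cons, List.prod_nil, mul_one]
  norm_num
  ring

lemma x81653 : xe 81653 = ([1, 11, 13, 143, 571, 6281, 7423, 81653].map fun d => cyclotomic d ℤ).prod := by
  have h := step 143 571 81653 (by norm_num) [1, 11, 13, 143] (by norm_num) (by decide) x143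
  rw [h]
  simp only [List.map_cons, List.map_nil, List.prod_cons, List.prod_nil, mul_one]
  norm_num
  ring

/-- `Φ_n` -/
noncomputable def phi : ℤ[X] := cyclotomic 81653 ℤ

/-- `(X^n - 1) / Φ_n` -/
noncomputable def psi : ℤ[X] :=
  cyclotomic 1 ℤ * cyclotomic 11 ℤ * cyclotomic 13 ℤ * cyclotomic 571 ℤ * cyclotomic 143 ℤ * cyclotomic 6281 ℤ * cyclotomic 7423 ℤ

/-- exponents -/
def numP : List (ℕ × ℕ) := [(11, 1), (13, 1), (571, 1), (81653, 1)]

/-- exponents -/
def denP : List (ℕ × ℕ) := [(1, 1), (143, 1), (6281, 1), (7423, 1)]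

/-- exponents -/
def numQ : List (ℕ × ℕ) := [(1, 1), (143, 1), (6281, 1), (7423, 1)]

/-- exponents -/
def denQ : List (ℕ × ℕ) := [(11, 1), (13, 1), (571, 1)]

lemma phi_mul : phi * prodX denP = prodX numP := by
  rw [denP, numP, phi]
  rw [prodX_cons1, prodX_cons1, prodX_cons1, prodX_cons1, prodX_nil, prodX_cons1, prodX_cons1, prodX_cons1, prodX_cons1, prodX_nil]
  rw [x1, x11, x13, x571, x143, x6281, x7423, x81653]
  simp only [List.map_cons, List.map_nil, List.prod_cons, List.prod_nil, mul_one]
  ring

lemma phi_psi : phi * psi = xe 81653 := by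
  rw [phi, psi, x81653]
  simp only [List.map_cons, List.map_nil, List.prod_cons, List.prod_nil, mul_one]
  ring

lemma psi_mul : psi * prodX denQ = prodX numQ := by
  rw [denQ, numQ, psi]
  rw [prodX_cons1, prodX_cons1, prodX_cons1, prodX_nil, prodX_cons1, prodX_cons1, prodX_cons1, prodX_cons1, prodX_nil]
  rw [x1, x11, x13, x571, x143, x6281, x7423]
  simp only [List.map_cons, List.map_nil, List.prod_cons, List.prod_nil, mul_one]
  ring

end Q262.Quat
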