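import Pool.Agent.Q262.Ht.Cert
import Pool.Agent.Q262.CycStep

/-!
Coefficients of `Φ_{ns}` for a prime `s ≡ 1 mod n`.
-/

set_option autoImplicit false

open Polynomial Finset

namespace Q262.Quat

open Q262.Hgt Q262.Circ Q262.Kron

/-- coefficients of `1/Φ_n` -/
def cc (n : ℕ) (Ψ : ℤ[X]) (i : ℕ) : ℤ := -Ψ.coeff (i % n)

lemma mk_cc_mul (n : ℕ) (Ψ : ℤ[X]) (hΨ : ∀ i, n ≤ i → Ψ.coeff i = 0) :
    PowerSeries.mk (cc n Ψ) * (1 - PowerSeries.X ^ n) = -(Ψ : PowerSeries ℤ) := by
  ext i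
  rw [mul_sub, mul_one, map_sub, PowerSeries.coeff_mk, PowerSeries.coeff_mul_X_pow', map_neg,
    Polynomial.coeff_coe]
  split_ifs with h
  · rw [PowerSeries.coeff_mk, cc, cc, hΨ i h, ← Nat.mod_eq_sub_mod h]
    ring
  · rw [cc, Nat.mod_eq_of_lt (not_le.mp h)]
    ring

lemma mul_mk_cc (n : ℕ) (hn : 0 < n) (Φ Ψ : ℤ[X]) (h : Φ * Ψ = xe n)
    (hΨ : ∀ i, n ≤ i → Ψ.coeff i = 0) :
    (Φ : PowerSeries ℤ) * PowerSeries.mk (cc n Ψ) = 1 := by
  have hne : (1 - PowerSeries.X ^ n : PowerSeries ℤ) ≠ 0 := by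
    intro h0
    have := congrArg (PowerSeries.coeff 0) h0
    rw [map_sub, PowerSeries.coeff_one, PowerSeries.coeff_X_pow] at this
    simp [hn.ne] at this
  apply mul_right_cancel₀ hne
  rw [mul_assoc, mk_cc_mul n Ψ hΨ, mul_neg, ← Polynomial.coe_mul, h, xe, Polynomial.coe_sub,
    Polynomial.coe_pow, Polynomial.coe_X, Polynomial.coe_one, one_mul, neg_sub]

lemma cc_add (n : ℕ) (Ψ : ℤ[X]) (i j : ℕ) : cc n Ψ (i + n * j) = cc n Ψ i := by
  rw [cc, cc, Nat.add_mul_mod_self_left]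

/-- the coefficients of `Φ_{ns}`, `s ≡ 1 mod n` -/
theorem coeff_ns (n s h : ℕ) (hn : 0 < n) (hs : s.Prime) (hdvd : ¬ s ∣ n) (hsn : s = 1 + n * h)
    (Φ Ψ : ℤ[X]) (hΦ : cyclotomic n ℤ = Φ) (hΦΨ : Φ * Ψ = xe n)
    (hΨ : ∀ i, n ≤ i → Ψ.coeff i = 0)
    (k j : ℕ) (hj0 : 1 ≤ j) (hj : j < s) (hjn : j ≤ n) :
    (cyclotomic (n * s) ℤ).coeff (s * k + j) =
      ∑ u ∈ range j, Ψ.coeff u * Φ.coeff (k + j - u) := by
  have h1 := mul_mk_cc n hn Φ Ψ hΦΨ hΨ
  have h2 : (cyclotomic (n * s) ℤ : PowerSeries ℤ) =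
      ((expand ℤ s Φ : ℤ[X]) : PowerSeries ℤ) * PowerSeries.mk (cc n Ψ) := by
    rw [← hΦ, cyclotomic_expand_eq_cyclotomic_mul hs hdvd, hΦ, Polynomial.coe_mul, mul_assoc, h1,
      mul_one]
  have hs0 : 0 < s := hs.pos
  -- coefficient as a sum over the multiples of `s`
  have h3 : (cyclotomic (n * s) ℤ).coeff (s * k + j) =
      ∑ i ∈ range (k + 1), Φ.coeff i * cc n Ψ (k + j - i) := by
    rw [← Polynomial.coeff_coe, h2, PowerSeries.coeff_mul]
    rw [Finset.Nat.sum_antidiagonal_eq_sum_range_succ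
      (fun a b => PowerSeries.coeff a ((expand ℤ s Φ : ℤ[X]) : PowerSeries ℤ) *
        PowerSeries.coeff b (PowerSeries.mk (cc n Ψ)))]
    simp only [Polynomial.coeff_coe, PowerSeries.coeff_mk, coeff_expand hs0]
    have himg : ∀ i ∈ range (k + 1), Φ.coeff i * cc n Ψ (k + j - i) =
        (fun u => (if s ∣ u then Φ.coeff (u / s) else 0) * cc n Ψ (s * k + j - u)) (s * i) := by
      intro i hi
      rw [Finset.mem_range] at hi
      simp only [dvd_mul_right, if_true]
      rw [Nat.mul_div_cancel_left _ hs0]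
      congr 1
      have e1 : s * k + j - s * i = (k + j - i) + n * (h * (k - i)) := by
        have e2 : s * k = s * i + s * (k - i) := by
          rw [← Nat.mul_add]; congr 1; omega
        have e3 : s * (k - i) = (k - i) + n * (h * (k - i)) := by
          rw [hsn]; ring
        omega
      rw [e1, cc_add]
    rw [Finset.sum_congr rfl himg, ← Finset.sum_image (f := fun u =>
      (if s ∣ u then Φ.coeff (u / s) else 0) * cc n Ψ (s * k + j - u))
      (g := fun i => s * i) (s := range (k + 1)) (by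
        intro a _ b _ hab
        exact Nat.eq_of_mul_eq_mul_left hs0 hab)]
    symm
    apply Finset.sum_subset
    · intro u hu
      rw [Finset.mem_image] at hu
      obtain ⟨i, hi, rfl⟩ := hu
      rw [Finset.mem_range] at hi ⊢
      have : s * i ≤ s * k := Nat.mul_le_mul_left s (by omega)
      omega
    · intro u hu hu2
      rw [Finset.mem_range] at hu
      by_cases hd : s ∣ u
      · exfalso
        apply hu2
        obtain ⟨i, rfl⟩ := hd
        rw [Finset.mem_image]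
        refine ⟨i, ?_, rfl⟩
        rw [Finset.mem_range]
        by_contra hcon
        have : s * (k + 1) ≤ s * i := Nat.mul_le_mul_left s (by omega)
        rw [Nat.mul_add, mul_one] at this
        omega
      · rw [if_neg hd, zero_mul]
  rw [h3]
  -- the full sum vanishes
  have h4 : ∑ i ∈ range (k + j + 1), Φ.coeff i * cc n Ψ (k + j - i) = 0 := by
    have h5 := congrArg (PowerSeries.coeff (k + j)) h1
    rw [PowerSeries.coeff_mul, PowerSeries.coeff_one, if_neg (by omega),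
      Finset.Nat.sum_antidiagonal_eq_sum_range_succ
      (fun a b => PowerSeries.coeff a (Φ : PowerSeries ℤ) *
        PowerSeries.coeff b (PowerSeries.mk (cc n Ψ)))] at h5
    simp only [Polynomial.coeff_coe, PowerSeries.coeff_mk] at h5
    exact h5
  have h6 : k + j + 1 = (k + 1) + j := by ring
  rw [h6, Finset.sum_range_add] at h4
  have h7 : ∑ i ∈ range j, Φ.coeff (k + 1 + i) * cc n Ψ (k + j - (k + 1 + i)) =
      ∑ u ∈ range j, Φ.coeff (k + j - u) * cc n Ψ u := by
    rw [← Finset.sum_range_reflect]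
    apply Finset.sum_congr rfl
    intro u hu
    rw [Finset.mem_range] at hu
    congr 2 <;> omega
  rw [h7] at h4
  have h8 : ∑ u ∈ range j, Φ.coeff (k + j - u) * cc n Ψ u =
      -∑ u ∈ range j, Ψ.coeff u * Φ.coeff (k + j - u) := by
    rw [← Finset.sum_neg_distrib]
    apply Finset.sum_congr rfl
    intro u hu
    rw [Finset.mem_range] at hu
    rw [cc, Nat.mod_eq_of_lt (by omega)]
    ring
  rw [h8] at h4
  linarith

end Q262.Quat
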