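import Pool.Agent.Q262.Ht.Sq5

/-!
The heights of the two special divisors of `X^10374 - 1`, and of `(X - 1) P_odd`.
-/

set_option autoImplicit false

open Polynomial Finset

namespace Q262.Kron

open Q262.Hgt Q262.Circ

/-- kernel version of `prodV` -/
def pv (B : ℕ) : List (ℕ × ℕ) → ℕ
  | [] => 1
  | a :: l => (B ^ a.1 - 1) ^ a.2 * pv B l

lemma pv_eq (B : ℕ) (l : List (ℕ × ℕ)) : pv B l = prodV B l := by
  induction l with
  | nil => rfl
  | cons a l ih => rw [pv, ih]; simp [prodV]

/-- `P_odd (2^108)` -/
def vO : ℕ := pv (2 ^ 108) numO / pv (2 ^ 108) denO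

/-- `P_even (2^108)` -/
def vE : ℕ := pv (2 ^ 108) numE / pv (2 ^ 108) denE

/-- check -/
def chkSO : Bool :=
  force (pv (2 ^ 108) numO) fun N => force (pv (2 ^ 108) denO) fun D => force (N / D) fun V =>
  Nat.beq (V * D) N && force (ones 108 5188) fun o =>
    force (8415683487216 * o) fun Ho => force ((2 ^ 108 - 2 ^ 44) * o) fun M =>
      chk 108 5188 Ho M V &&
      Nat.beq ((V + Ho) / (2 ^ 108) ^ 2590 % 2 ^ 108 + 9401697462912)
        ((V + Ho) / (2 ^ 108) ^ 2589 % 2 ^ 108)

/-- check -/
def chkSE : Bool :=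
  force (pv (2 ^ 108) numE) fun N => force (pv (2 ^ 108) denE) fun D => force (N / D) fun V =>
  Nat.beq (V * D) N && force (ones 108 5188) fun o =>
    force (8415683487216 * o) fun Ho => force ((2 ^ 108 - 2 ^ 44) * o) fun M =>
      chk 108 5188 Ho M V

theorem chkSO_true : chkSO = true := by decide +kernel

theorem chkSE_true : chkSE = true := by decide +kernel


attribute [local irreducible] vO vE ones

lemma expo_numO : expo numO = 61 := by decide
lemma expo_denO : expo denO = 61 := by decide
lemma expo_numE : expo numE = 61 := by decide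
lemma expo_denE : expo denE = 60 := by decide

theorem height_polO_aux : (∀ i, |polO.coeff i| ≤ (8415683487216 : ℕ)) ∧
    polO.coeff 2589 - polO.coeff 2590 = 9401697462912 := by
  have h := chkSO_true
  simp only [chkSO, force_eq, Bool.and_eq_true] at h
  obtain ⟨h1, h2, h3⟩ := h
  have h1 := Nat.eq_of_beq_eq_true h1
  have h3 := Nat.eq_of_beq_eq_true h3
  rw [pv_eq, pv_eq] at h1 h2 h3
  have key := height_of_prodX polO denO numO (by decide) polO_mul 108 44 5188 8415683487216
    (prodV (2 ^ 108) numO / prodV (2 ^ 108) denO) h1 (by norm_num) (by norm_num)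
    (by rw [expo_numO, expo_denO]; norm_num) h2
  refine ⟨key.1, ?_⟩
  rw [key.2, key.2, if_pos (by norm_num), if_pos (by norm_num), ← h3]
  push_cast
  ring

theorem height_polE_aux : (∀ i, |polE.coeff i| ≤ (8415683487216 : ℕ)) := by
  have h := chkSE_true
  simp only [chkSE, force_eq, Bool.and_eq_true] at h
  obtain ⟨h1, h2⟩ := h
  have h1 := Nat.eq_of_beq_eq_true h1
  rw [pv_eq, pv_eq] at h1 h2
  have key := height_of_prodX polE denE numE (by decide) polE_mul 108 44 5188 8415683487216
    (prodV (2 ^ 108) numE / prodV (2 ^ 108) denE) h1 (by norm_num) (by norm_num)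
    (by rw [expo_numE, expo_denE]; norm_num) h2
  exact key.1

theorem height_polO : height polO ≤ 8415683487216 := by
  rw [height_le_iff]
  exact height_polO_aux.1

theorem height_polE : height polE ≤ 8415683487216 := by
  rw [height_le_iff]
  exact height_polE_aux

theorem le_height_mul : 9401697462912 ≤ height ((X - 1) * polO) := by
  have := natAbs_coeff_le ((X - 1) * polO) 2590
  have h2 := height_polO_aux.2
  have h3 : ((X - 1) * polO).coeff 2590 = polO.coeff 2589 - polO.coeff 2590 := by
    rw [sub_mul, one_mul, coeff_sub, coeff_X_mul]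
  rw [h3, h2] at this
  exact this

lemma xe_eq (e : ℕ) : (X : ℤ[X]) ^ e - 1 = xe e := rfl

theorem mul_dvd : (X - 1) * polO ∣ xe 10374 := by
  rw [← polO_polE]
  have h1 : (X - 1 : ℤ[X]) ∣ polE := by
    rw [← cyclotomic_one, polE]
    repeat rw [mul_assoc]
    exact Dvd.intro _ rfl
  rw [mul_comm]
  exact mul_dvd_mul_left _ h1

end Q262.Kron
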