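import Pool.Agent.Q262.Ht.QuatData
import Pool.Agent.Q262.Ht.Sq5Main

/-!
A coefficient of `Φ_{11 · 13 · 571 · 163307}`.
-/

set_option autoImplicit false

open Polynomial Finset

namespace Q262.Quat

open Q262.Hgt Q262.Circ Q262.Kron

/-- `∑_{u < f} (y_Ψ(u) - 1) (y_Φ(N - u) - 1) + (stuff)`: sums of the digits -/
def sm (YP YQ N : ℕ) (f : ℕ) : ℕ → ℕ → Bool :=
  Nat.rec (motive := fun _ => ℕ → ℕ → Bool) (fun a b => Nat.beq (a + 53) (b + 5))
    (fun u ih a b => force (YQ / (2 ^ 7) ^ u % 2 ^ 7) fun x => force (YP / (2 ^ 7) ^ (N - u) % 2 ^ 7) fun y =>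
      force (a + x * y) fun a' => force (b + x + y) fun b' => ih a' b') f

/-- check -/
def chkAll : Bool :=
  force (pv (2 ^ 7) numP) fun N => force (pv (2 ^ 7) denP) fun D => force (N / D) fun V =>
  force (pv (2 ^ 7) numQ) fun N' => force (pv (2 ^ 7) denQ) fun D' => force (N' / D') fun V' =>
  force (ones 7 68401) fun o => force (ones 7 13254) fun o' =>
  Nat.beq (V * D) N && Nat.beq (V' * D') N' &&
  chk 7 68401 (1 * o) ((2 ^ 7 - 2 ^ 2) * o) V && chk 7 13254 (1 * o') ((2 ^ 7 - 2 ^ 2) * o') V' &&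
  force (V + 1 * o) fun YP => force (V' + 1 * o') fun YQ => sm YP YQ 25190 53 0 0

theorem chkAll_true : chkAll = true := by decide +kernel

lemma sm_succ (YP YQ N f a b : ℕ) : sm YP YQ N (f + 1) a b =
    sm YP YQ N f (a + YQ / (2 ^ 7) ^ f % 2 ^ 7 * (YP / (2 ^ 7) ^ (N - f) % 2 ^ 7))
      (b + YQ / (2 ^ 7) ^ f % 2 ^ 7 + YP / (2 ^ 7) ^ (N - f) % 2 ^ 7) := by
  show (force (YQ / (2 ^ 7) ^ f % 2 ^ 7) fun x => force (YP / (2 ^ 7) ^ (N - f) % 2 ^ 7) fun y =>
    force (a + x * y) fun a' => force (b + x + y) fun b' => sm YP YQ N f a' b') = _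
  rw [force_eq, force_eq, force_eq, force_eq]

lemma sm_sound (YP YQ N : ℕ) (f : ℕ) : ∀ a b : ℕ, sm YP YQ N f a b = true →
    (a : ℤ) - b + ∑ u ∈ range f, ((((YQ / (2 ^ 7) ^ u % 2 ^ 7 : ℕ) : ℤ) - 1) *
      (((YP / (2 ^ 7) ^ (N - u) % 2 ^ 7 : ℕ) : ℤ) - 1) - 1) = -48 := by
  induction f with
  | zero =>
    intro a b h
    have h1 := Nat.eq_of_beq_eq_true h
    have h2 : (a : ℤ) + 53 = b + 5 := by exact_mod_cast h1
    rw [Finset.sum_range_zero]
    linarith
  | succ f ih =>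
    intro a b h
    rw [sm_succ] at h
    have := ih _ _ h
    rw [Finset.sum_range_succ]
    push_cast at this ⊢
    linarith

attribute [local irreducible] ones

lemma expo_numP : expo numP = 4 := by decide
lemma expo_denP : expo denP = 4 := by decide
lemma expo_numQ : expo numQ = 4 := by decide
lemma expo_denQ : expo denQ = 3 := by decide
lemma pos_denP : ∀ a ∈ denP, 0 < a.1 := by
  intro a ha
  simp only [denP, List.mem_cons, List.not_mem_nil, or_false] at ha
  rcases ha with rfl | rfl | rfl | rfl <;> norm_num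
lemma pos_denQ : ∀ a ∈ denQ, 0 < a.1 := by
  intro a ha
  simp only [denQ, List.mem_cons, List.not_mem_nil, or_false] at ha
  rcases ha with rfl | rfl | rfl <;> norm_num

theorem coeff_main : (∀ i, 13254 ≤ i → psi.coeff i = 0) ∧
    ∑ u ∈ range 53, psi.coeff u * phi.coeff (25190 - u) = 5 := by
  have h := chkAll_true
  simp only [chkAll, force_eq, Bool.and_eq_true] at h
  obtain ⟨⟨⟨⟨h1, h2⟩, h3⟩, h4⟩, h5⟩ := h
  have h1 := Nat.eq_of_beq_eq_true h1
  have h2 := Nat.eq_of_beq_eq_true h2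
  rw [pv_eq, pv_eq] at h1 h2 h3 h4 h5
  rw [pv_eq, pv_eq] at h5
  have kP := (height_of_prodX _ denP numP pos_denP phi_mul 7 2 68401 1 _ h1
    (by norm_num) (by norm_num) (by rw [expo_numP, expo_denP]; norm_num) h3).2
  have kQ := (height_of_prodX psi denQ numQ pos_denQ psi_mul 7 2 13254 1 _ h2
    (by norm_num) (by norm_num) (by rw [expo_numQ, expo_denQ]; norm_num) h4).2
  refine ⟨?_, ?_⟩
  · intro i hi
    rw [kQ, if_neg (by omega)]
  · have h6 := sm_sound _ _ _ _ _ _ h5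
    have h7 : ∀ u ∈ range 53, psi.coeff u * phi.coeff (25190 - u) =
        (((prodV (2 ^ 7) numQ / prodV (2 ^ 7) denQ + 1 * ones 7 13254) / (2 ^ 7) ^ u % 2 ^ 7 : ℕ) - 1 : ℤ) *
        (((prodV (2 ^ 7) numP / prodV (2 ^ 7) denP + 1 * ones 7 68401) / (2 ^ 7) ^ (25190 - u) % 2 ^ 7 : ℕ) - 1) := by
      intro u hu
      rw [Finset.mem_range] at hu
      rw [kP, kQ, if_pos (by omega), if_pos (by omega)]
      rfl
    rw [Finset.sum_congr rfl h7]
    rw [Finset.sum_sub_distrib, Finset.sum_const, Finset.card_range] at h6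
    simp only [nsmul_eq_mul, mul_one] at h6
    push_cast at h6 ⊢
    linarith

theorem coeff_quat : (cyclotomic (81653 * 163307) ℤ).coeff (163307 * 25137 + 53) = 5 := by
  rw [coeff_ns 81653 163307 2 (by norm_num) (by norm_num) (by norm_num) (by norm_num) phi psi rfl
    phi_psi (fun i hi => coeff_main.1 i (by omega)) 25137 53 (by norm_num) (by norm_num) (by norm_num)]
  exact coeff_main.2

theorem height_quat : 5 ≤ height (cyclotomic (11 * 13 * 571 * 163307) ℤ) := by
  have h := natAbs_coeff_le (cyclotomic (81653 * 163307) ℤ) (163307 * 25137 + 53)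
  rw [coeff_quat] at h
  have e : 11 * 13 * 571 * 163307 = 81653 * 163307 := by norm_num
  rw [e]
  exact h

end Q262.Quat
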