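import Pool.Agent.Q262.Ht.Sq5Main

/-!
The two special divisors of `X^n - 1`, `n` squarefree.
-/

set_option autoImplicit false

open Polynomial Finset

namespace Q262.Kron

open Q262.Hgt Q262.Circ

/-- the product of the `Φ_d` over the divisors `d` of `n` with an odd number of prime factors -/
noncomputable def pOdd (n : ℕ) : ℤ[X] :=
  ∏ d ∈ n.divisors with Odd d.primeFactors.card, cyclotomic d ℤ

/-- the product of the `Φ_d` over the divisors `d` of `n` with an even number of prime factors -/
noncomputable def pEven (n : ℕ) : ℤ[X] :=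
  ∏ d ∈ n.divisors with Even d.primeFactors.card, cyclotomic d ℤ

lemma filter_eq (S : Finset ℕ) (hS : ∀ p ∈ S, p.Prime) (n : ℕ) (hn : ∏ p ∈ S, p = n)
    (P : ℕ → Prop) [DecidablePred P] :
    (n.divisors.filter fun d => P d.primeFactors.card) =
      (S.powerset.filter fun s => P s.card).image fun s => ∏ p ∈ s, p := by
  have hsq : Squarefree n := by
    rw [← hn]
    apply Finset.squarefree_prod_of_pairwise_isCoprime
    · intro a ha b hb hab
      rw [Function.onFun, ← Nat.coprime_iff_isRelPrime]
      exact (Nat.coprime_primes (hS a ha) (hS b hb)).mpr hab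
    · intro a ha
      exact (hS a ha).squarefree
  have hpf : n.primeFactors = S := by rw [← hn]; exact Nat.primeFactors_prod hS
  ext d
  simp only [mem_filter, Nat.mem_divisors, mem_image, mem_powerset]
  constructor
  · rintro ⟨⟨hd, h0⟩, hP⟩
    refine ⟨d.primeFactors, ⟨?_, hP⟩, Nat.prod_primeFactors_of_squarefree (hsq.squarefree_of_dvd hd)⟩
    rw [← hpf]
    exact Nat.primeFactors_mono hd h0
  · rintro ⟨s, ⟨hs, hP⟩, rfl⟩
    have h1 : (∏ p ∈ s, p).primeFactors = s := Nat.primeFactors_prod fun p hp => hS p (hs hp)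
    refine ⟨⟨?_, hsq.ne_zero⟩, ?_⟩
    · rw [← hn]; exact Finset.prod_dvd_prod_of_subset _ _ _ hs
    · rw [h1]; exact hP

lemma primes5 : ∀ p ∈ ({2, 3, 7, 13, 19} : Finset ℕ), p.Prime := by
  intro p hp
  simp only [mem_insert, mem_singleton] at hp
  rcases hp with rfl | rfl | rfl | rfl | rfl <;> norm_num

lemma prod5 : ∏ p ∈ ({2, 3, 7, 13, 19} : Finset ℕ), p = 10374 := by decide

lemma setO : ((({2, 3, 7, 13, 19} : Finset ℕ).powerset.filter fun s => Odd s.card).image
    fun s => ∏ p ∈ s, p) =
    {2, 3, 7, 13, 19, 42, 78, 114, 182, 266, 494, 273, 399, 741, 1729, 10374} := by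
  decide +kernel

lemma setE : ((({2, 3, 7, 13, 19} : Finset ℕ).powerset.filter fun s => Even s.card).image
    fun s => ∏ p ∈ s, p) =
    {1, 6, 14, 26, 38, 21, 39, 57, 91, 133, 247, 546, 798, 1482, 3458, 5187} := by
  decide +kernel

lemma pOdd_eq : pOdd 10374 = polO := by
  rw [pOdd, filter_eq _ primes5 10374 prod5 (fun k => Odd k), setO, polO]
  simp only [Finset.prod_insert, Finset.prod_singleton, Finset.mem_insert, Finset.mem_singleton,
    Nat.reduceEqDiff, or_self, not_false_eq_true, mul_assoc]

lemma pEven_eq : pEven 10374 = polE := by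
  rw [pEven, filter_eq _ primes5 10374 prod5 (fun k => Even k), setE, polE]
  simp only [Finset.prod_insert, Finset.prod_singleton, Finset.mem_insert, Finset.mem_singleton,
    Nat.reduceEqDiff, or_self, not_false_eq_true, mul_assoc]

lemma squarefree_10374 : Squarefree 10374 := by
  rw [← prod5]
  apply Finset.squarefree_prod_of_pairwise_isCoprime
  · intro a ha b hb hab
    rw [Function.onFun, ← Nat.coprime_iff_isRelPrime]
    exact (Nat.coprime_primes (primes5 a ha) (primes5 b hb)).mpr hab
  · intro a ha
    exact (primes5 a ha).squarefree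

end Q262.Kron
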